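import Mathlib

/-!
# Rational plane curves and their canonical degree on blow-ups of the plane

All points of `ℙ¹ = ℂ ∪ {∞}`; rational functions in one variable over `ℂ`.
-/

open Polynomial
open scoped OnePoint

namespace Pool.Agent.H80.RS

/-- The order of vanishing of a nonzero polynomial `A` at a point of `ℙ¹ = ℂ ∪ {∞}`: the
multiplicity of the root `a` at a point `a ∈ ℂ`, and `- deg A` at the point `∞`. -/
noncomputable def polyOrd : OnePoint ℂ → ℂ[X] → ℤ
  | ∞, A => -(A.natDegree : ℤ)
  | (a : ℂ), A => (A.rootMultiplicity a : ℤ)

/-- The order of vanishing at a point `p ∈ ℙ¹ = ℂ ∪ {∞}` of a nonzero rational function `g`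
(negative at the poles of `g`). -/
noncomputable def ordAt (p : OnePoint ℂ) (g : RatFunc ℂ) : ℤ :=
  polyOrd p g.num - polyOrd p g.denom

/-- An irreducible rational curve in the projective plane `ℙ²` over `ℂ`, given through its
normalisation `ℙ¹ → ℙ²`, `t ↦ (X(t) : Y(t) : 1)`, where `X` and `Y` are non-constant rational
functions.  The last field says that the map is injective outside a finite set `T ⊂ ℂ`, that is,
birational onto its image `C`; so `C` is a reduced irreducible curve, `ℙ¹ → C` is its
normalisation, and the geometric genus of `C` is `0`. -/
structure RationalCurve where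
  X : RatFunc ℂ
  Y : RatFunc ℂ
  X_nonconst : ∀ c : ℂ, X ≠ RatFunc.C c
  Y_nonconst : ∀ c : ℂ, Y ≠ RatFunc.C c
  birational : ∃ T : Set ℂ, T.Finite ∧ ∀ s t : ℂ, s ∉ T → t ∉ T →
    X.eval (RingHom.id ℂ) s = X.eval (RingHom.id ℂ) t →
    Y.eval (RingHom.id ℂ) s = Y.eval (RingHom.id ℂ) t → s = t

namespace RationalCurve

variable (C : RationalCurve)

/-- The degree of the plane curve `C`, that is, the degree of the pullback of a line to the
normalisation: the sum over the points `p` of `ℙ¹` of the largest pole order of `X`, `Y`, `1`
at `p`. -/
noncomputable def degree : ℤ :=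
  -∑ᶠ p : OnePoint ℂ, min 0 (min (ordAt p C.X) (ordAt p C.Y))

/-- Let `(u, v)` be the coordinates of a chart `𝔸²` of a surface birational to `ℙ²`, written as
nonzero rational functions of the parameter of `C`.  This is the multiplicity, at the origin
`u = v = 0` of the chart, of the strict transform of `C`: the sum over the branches of the curve
through this point, i.e. over the points `p` of the normalisation with `ord_p u > 0` and
`ord_p v > 0`, of the multiplicity `min (ord_p u) (ord_p v)` of the branch. -/
noncomputable def mult (u v : RatFunc ℂ) : ℤ :=
  ∑ᶠ p : OnePoint ℂ, max 0 (min (ordAt p u) (ordAt p v))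

/-- The canonical degree `K_X · C' = -3 deg C + ∑ mᵢ` of the strict transform `C'` of `C` on the
surface `X` obtained from the plane with affine coordinates `(x, y)` by blowing up successively
the following eleven points, where `mᵢ` is the multiplicity at the `i`-th of them:

* for `i = 1, 2, 3` the point `(e i, 0)`, and then the infinitely near point in the direction of the
  vertical line `x = e i`, i.e. the origin of the chart with coordinates `((x - e i) / y, y)`;
* the point `(0 : 1 : 0)` at infinity, i.e. the origin of the chart `(x / y, 1 / y)`; then the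
  infinitely near point which is the origin of the chart `(x / y, 1 / x)`, and then the infinitely
  near point which is the origin of the chart `(x / y, y / x ^ 2)`;
* the points `(a, b)` and `(c, 0)`.

The first nine points are the base points of the pencil of the cubic curves
`λ y ^ 2 = (x - e 1) (x - e 2) (x - e 3)`, so the blow-up of the first nine points is a rational
elliptic surface. -/
noncomputable def canonicalDegree (e : Fin 3 → ℂ) (a b c : ℂ) : ℤ :=
  -3 * C.degree
    + ∑ i : Fin 3, (mult (C.X - RatFunc.C (e i)) C.Y
        + mult ((C.X - RatFunc.C (e i)) / C.Y) C.Y)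
    + (mult (C.X / C.Y) (1 / C.Y) + mult (C.X / C.Y) (1 / C.X)
        + mult (C.X / C.Y) (C.Y / C.X ^ 2))
    + mult (C.X - RatFunc.C a) (C.Y - RatFunc.C b)
    + mult (C.X - RatFunc.C c) C.Y

end RationalCurve

end Pool.Agent.H80.RS
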