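import Mathlib
import Pool.Agent.H80.RS.Defs

/-!
Orders of rational functions at the points of `ℙ¹`.
-/

open Polynomial
open scoped OnePoint

namespace Pool.Agent.H80.RS

theorem polyOrd_mul (p : OnePoint ℂ) {A B : ℂ[X]} (hA : A ≠ 0) (hB : B ≠ 0) :
    polyOrd p (A * B) = polyOrd p A + polyOrd p B := by
  induction p using OnePoint.rec with
  | infty =>
    simp only [polyOrd]
    rw [natDegree_mul hA hB]
    push_cast
    ring
  | coe a =>
    simp only [polyOrd]
    rw [rootMultiplicity_mul (mul_ne_zero hA hB)]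
    push_cast
    ring

theorem polyOrd_one (p : OnePoint ℂ) : polyOrd p 1 = 0 := by
  induction p using OnePoint.rec with
  | infty => simp [polyOrd]
  | coe a =>
    simp only [polyOrd]
    rw [← C_1, rootMultiplicity_C]
    rfl

theorem polyOrd_C (p : OnePoint ℂ) (c : ℂ) : polyOrd p (C c) = 0 := by
  induction p using OnePoint.rec with
  | infty => simp [polyOrd]
  | coe a =>
    simp only [polyOrd]
    rw [rootMultiplicity_C]
    rfl

theorem polyOrd_add (p : OnePoint ℂ) {A B : ℂ[X]} (h : A + B ≠ 0) :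
    min (polyOrd p A) (polyOrd p B) ≤ polyOrd p (A + B) := by
  induction p using OnePoint.rec with
  | infty =>
    simp only [polyOrd]
    have := natDegree_add_le A B
    omega
  | coe a =>
    simp only [polyOrd]
    have := rootMultiplicity_add a h
    omega

theorem ordAt_div_poly (p : OnePoint ℂ) {A B : ℂ[X]} (hA : A ≠ 0) (hB : B ≠ 0) :
    ordAt p (algebraMap ℂ[X] (RatFunc ℂ) A / algebraMap ℂ[X] (RatFunc ℂ) B)
      = polyOrd p A - polyOrd p B := by
  set g := algebraMap ℂ[X] (RatFunc ℂ) A / algebraMap ℂ[X] (RatFunc ℂ) B with hg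
  have h1 : g.num * B = A * g.denom := (RatFunc.num_mul_eq_mul_denom_iff hB).2 hg
  have hg0 : g ≠ 0 := by
    rw [hg]
    exact div_ne_zero (by simpa using hA) (by simpa using hB)
  have h2 := congrArg (polyOrd p) h1
  rw [polyOrd_mul p (RatFunc.num_ne_zero hg0) hB, polyOrd_mul p hA (RatFunc.denom_ne_zero g)] at h2
  rw [ordAt]
  omega

theorem ordAt_mul (p : OnePoint ℂ) {g h : RatFunc ℂ} (hg : g ≠ 0) (hh : h ≠ 0) :
    ordAt p (g * h) = ordAt p g + ordAt p h := by
  have e : g * h = algebraMap ℂ[X] (RatFunc ℂ) (g.num * h.num)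
      / algebraMap ℂ[X] (RatFunc ℂ) (g.denom * h.denom) := by
    conv_lhs => rw [← RatFunc.num_div_denom g, ← RatFunc.num_div_denom h]
    rw [map_mul, map_mul, div_mul_div_comm]
  rw [e, ordAt_div_poly p (mul_ne_zero (RatFunc.num_ne_zero hg) (RatFunc.num_ne_zero hh))
    (mul_ne_zero (RatFunc.denom_ne_zero g) (RatFunc.denom_ne_zero h)),
    polyOrd_mul p (RatFunc.num_ne_zero hg) (RatFunc.num_ne_zero hh),
    polyOrd_mul p (RatFunc.denom_ne_zero g) (RatFunc.denom_ne_zero h), ordAt, ordAt]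
  ring

theorem ordAt_C (p : OnePoint ℂ) (c : ℂ) : ordAt p (RatFunc.C c) = 0 := by
  rw [ordAt, RatFunc.num_C, RatFunc.denom_C, polyOrd_C, polyOrd_one, sub_zero]

theorem ordAt_one (p : OnePoint ℂ) : ordAt p 1 = 0 := by
  have := ordAt_C p 1
  rwa [map_one] at this

theorem ordAt_inv (p : OnePoint ℂ) {g : RatFunc ℂ} (hg : g ≠ 0) : ordAt p g⁻¹ = - ordAt p g := by
  have h := ordAt_mul p hg (inv_ne_zero hg)
  rw [mul_inv_cancel₀ hg, ordAt_one] at h
  omega

theorem ordAt_div (p : OnePoint ℂ) {g h : RatFunc ℂ} (hg : g ≠ 0) (hh : h ≠ 0) :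
    ordAt p (g / h) = ordAt p g - ordAt p h := by
  rw [div_eq_mul_inv, ordAt_mul p hg (inv_ne_zero hh), ordAt_inv p hh]
  ring

theorem ordAt_sq (p : OnePoint ℂ) {g : RatFunc ℂ} (hg : g ≠ 0) :
    ordAt p (g ^ 2) = 2 * ordAt p g := by
  rw [pow_two, ordAt_mul p hg hg]
  ring

theorem ordAt_add (p : OnePoint ℂ) {g h : RatFunc ℂ} (hg : g ≠ 0) (hh : h ≠ 0) (hgh : g + h ≠ 0) :
    min (ordAt p g) (ordAt p h) ≤ ordAt p (g + h) := by
  have e : g + h = algebraMap ℂ[X] (RatFunc ℂ) (g.num * h.denom + h.num * g.denom)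
      / algebraMap ℂ[X] (RatFunc ℂ) (g.denom * h.denom) := by
    conv_lhs => rw [← RatFunc.num_div_denom g, ← RatFunc.num_div_denom h]
    rw [map_mul, map_add, map_mul, map_mul, div_add_div _ _
      (by simpa using RatFunc.denom_ne_zero g) (by simpa using RatFunc.denom_ne_zero h)]
    ring
  have hn : g.num * h.denom + h.num * g.denom ≠ 0 := by
    intro h0
    apply hgh
    rw [e, h0, map_zero, zero_div]
  have hd := mul_ne_zero (RatFunc.denom_ne_zero g) (RatFunc.denom_ne_zero h)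
  rw [e, ordAt_div_poly p hn hd]
  have h1 := polyOrd_add p hn
  rw [polyOrd_mul p (RatFunc.num_ne_zero hg) (RatFunc.denom_ne_zero h),
    polyOrd_mul p (RatFunc.num_ne_zero hh) (RatFunc.denom_ne_zero g)] at h1
  rw [polyOrd_mul p (RatFunc.denom_ne_zero g) (RatFunc.denom_ne_zero h)]
  rw [ordAt, ordAt]
  omega

theorem C_ne {c : ℂ} (hc : c ≠ 0) : RatFunc.C c ≠ 0 := by
  rw [Ne, map_eq_zero]
  exact hc

/-- a constant perturbation does not change the order at a pole, and the order is nonnegative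
elsewhere -/
theorem ordAt_sub_C (p : OnePoint ℂ) {g : RatFunc ℂ} (hg : ∀ c, g ≠ RatFunc.C c) (c : ℂ) :
    (ordAt p g < 0 → ordAt p (g - RatFunc.C c) = ordAt p g) ∧
    (0 ≤ ordAt p g → 0 ≤ ordAt p (g - RatFunc.C c)) := by
  have hg0 : g ≠ 0 := by
    have := hg 0
    rwa [map_zero] at this
  by_cases hc : c = 0
  · rw [hc, map_zero, sub_zero]
    exact ⟨fun _ => rfl, fun h => h⟩
  · have h1 : g - RatFunc.C c ≠ 0 := sub_ne_zero.2 (hg c)
    have h2 : RatFunc.C (-c) ≠ 0 := C_ne (neg_ne_zero.2 hc)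
    have e1 : g - RatFunc.C c = g + RatFunc.C (-c) := by rw [map_neg, sub_eq_add_neg]
    have k1 := ordAt_add p hg0 h2 (by rwa [← e1])
    rw [← e1, ordAt_C] at k1
    have e2 : g = (g - RatFunc.C c) + RatFunc.C c := (sub_add_cancel _ _).symm
    have k2 := ordAt_add p h1 (C_ne hc) (by rwa [← e2])
    rw [← e2, ordAt_C] at k2
    constructor
    · intro h
      omega
    · intro h
      omega

/-- `g` takes only one value at a point -/
theorem ordAt_sub_C_pos (p : OnePoint ℂ) {g : RatFunc ℂ} (hg : ∀ c, g ≠ RatFunc.C c) {c c' : ℂ}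
    (hc : c ≠ c') (h : 0 < ordAt p (g - RatFunc.C c)) : ordAt p (g - RatFunc.C c') = 0 := by
  have h1 : g - RatFunc.C c ≠ 0 := sub_ne_zero.2 (hg c)
  have h2 : g - RatFunc.C c' ≠ 0 := sub_ne_zero.2 (hg c')
  have h3 : RatFunc.C (c' - c) ≠ 0 := C_ne (sub_ne_zero.2 hc.symm)
  have h3' : RatFunc.C (c - c') ≠ 0 := C_ne (sub_ne_zero.2 hc)
  have e1 : g - RatFunc.C c = (g - RatFunc.C c') + RatFunc.C (c' - c) := by
    rw [map_sub]; ring
  have e2 : g - RatFunc.C c' = (g - RatFunc.C c) + RatFunc.C (c - c') := by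
    rw [map_sub]; ring
  have k1 := ordAt_add p h2 h3 (by rwa [← e1])
  rw [← e1, ordAt_C] at k1
  have k2 := ordAt_add p h1 h3' (by rwa [← e2])
  rw [← e2, ordAt_C] at k2
  have e3 : RatFunc.C (c' - c) = (g - RatFunc.C c) + (-1) * (g - RatFunc.C c') := by
    rw [map_sub]; ring
  have h4 : (-1 : RatFunc ℂ) * (g - RatFunc.C c') ≠ 0 := mul_ne_zero (by norm_num) h2
  have k3 := ordAt_add p h1 h4 (by rwa [← e3])
  have h5 : ordAt p (-1 : RatFunc ℂ) = 0 := by
    have := ordAt_C p (-1)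
    rwa [map_neg, map_one] at this
  rw [← e3, ordAt_C, ordAt_mul p (by norm_num) h2, h5] at k3
  omega

theorem polyOrd_support (A : ℂ[X]) :
    {p : OnePoint ℂ | polyOrd p A ≠ 0} ⊆
      ((fun a : ℂ => (a : OnePoint ℂ)) '' (A.roots.toFinset : Set ℂ)) ∪ {∞} := by
  intro p hp
  induction p using OnePoint.rec with
  | infty => exact Or.inr rfl
  | coe a =>
    left
    refine ⟨a, ?_, rfl⟩
    rw [Finset.mem_coe, Multiset.mem_toFinset, ← Multiset.count_pos, count_roots]
    have h : (A.rootMultiplicity a : ℤ) ≠ 0 := hp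
    omega

theorem polyOrd_finite (A : ℂ[X]) : {p : OnePoint ℂ | polyOrd p A ≠ 0}.Finite :=
  (((Finset.finite_toSet _).image _).union (Set.finite_singleton _)).subset (polyOrd_support A)

theorem ordAt_finite (g : RatFunc ℂ) : {p : OnePoint ℂ | ordAt p g ≠ 0}.Finite := by
  refine ((polyOrd_finite g.num).union (polyOrd_finite g.denom)).subset ?_
  intro p hp
  by_contra hc
  rw [Set.mem_union, not_or] at hc
  apply hp
  have h1 : polyOrd p g.num = 0 := not_not.1 hc.1
  have h2 : polyOrd p g.denom = 0 := not_not.1 hc.2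
  rw [ordAt, h1, h2, sub_zero]

theorem polyOrd_sum (A : ℂ[X]) : ∑ᶠ p : OnePoint ℂ, polyOrd p A = 0 := by
  classical
  set F : Finset (OnePoint ℂ) := insert ∞ (A.roots.toFinset.image (fun a : ℂ => (a : OnePoint ℂ)))
    with hF
  rw [finsum_eq_sum_of_support_subset (s := F)]
  · rw [hF, Finset.sum_insert]
    · rw [Finset.sum_image (fun a _ b _ h => OnePoint.coe_injective h)]
      have h1 : ∀ a ∈ A.roots.toFinset, polyOrd (a : OnePoint ℂ) A = (A.roots.count a : ℤ) := by
        intro a _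
        rw [count_roots]
        rfl
      rw [Finset.sum_congr rfl h1, ← Nat.cast_sum, Multiset.toFinset_sum_count_eq]
      have h2 : Multiset.card A.roots = A.natDegree :=
        splits_iff_card_roots.1 (IsAlgClosed.splits A)
      rw [h2]
      simp [polyOrd]
    · intro h
      obtain ⟨a, -, ha⟩ := Finset.mem_image.1 h
      exact OnePoint.coe_ne_infty a ha
  · intro p hp
    have := polyOrd_support A hp
    rw [hF]
    push_cast
    rcases this with h | h
    · right; exact h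
    · left; exact h

theorem ordAt_sum (g : RatFunc ℂ) : ∑ᶠ p : OnePoint ℂ, ordAt p g = 0 := by
  have h : ∀ p, ordAt p g = polyOrd p g.num - polyOrd p g.denom := fun p => rfl
  rw [finsum_congr h, finsum_sub_distrib (polyOrd_finite _) (polyOrd_finite _), polyOrd_sum,
    polyOrd_sum, sub_zero]

end Pool.Agent.H80.RS
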