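import Mathlib
import Pool.Agent.H80.RS.Ord
import Pool.Graph.R_seed8.Y442.EC.Dn

/-!
Rational functions of `℘`, and their orders.
-/

open Filter Topology Polynomial
open H4EP H667R3 Pool.Agent.TH172.ER
open scoped OnePoint PeriodPair

noncomputable section

namespace Pool.Agent.H80.RS

variable (L : PeriodPair)

open Classical in
/-- the point of `ℙ¹` below `z ∈ ℂ`: the value of `℘` -/
def pt (z : ℂ) : OnePoint ℂ := if z ∈ L.lattice then ∞ else ((L.weierstrassP z : ℂ) : OnePoint ℂ)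

theorem pt_lattice {z : ℂ} (h : z ∈ L.lattice) : pt L z = ∞ := if_pos h

theorem pt_not {z : ℂ} (h : z ∉ L.lattice) : pt L z = ((L.weierstrassP z : ℂ) : OnePoint ℂ) :=
  if_neg h

theorem pt_surj (p : OnePoint ℂ) : ∃ z, pt L z = p := by
  induction p using OnePoint.rec with
  | infty => exact ⟨0, pt_lattice L (zero_mem _)⟩
  | coe a =>
    obtain ⟨z, hz, h⟩ := exists_wp_eq L a
    exact ⟨z, by rw [pt_not L hz, h]⟩

theorem pt_neg (z : ℂ) : pt L (-z) = pt L z := by
  by_cases h : z ∈ L.lattice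
  · rw [pt_lattice L h, pt_lattice L (neg_mem h)]
  · have h' : -z ∉ L.lattice := fun h' => h (by simpa using neg_mem h')
    rw [pt_not L h, pt_not L h', L.weierstrassP_neg]

theorem pt_eq {z w : ℂ} (h : pt L z = pt L w) : cl L z = cl L w ∨ cl L z = - cl L w := by
  by_cases hz : z ∈ L.lattice
  · by_cases hw : w ∈ L.lattice
    · left
      rw [cl_eq_zero.2 hz, cl_eq_zero.2 hw]
    · rw [pt_lattice L hz, pt_not L hw] at h
      exact absurd h.symm (OnePoint.coe_ne_infty _)
  · by_cases hw : w ∈ L.lattice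
    · rw [pt_lattice L hw, pt_not L hz] at h
      exact absurd h (OnePoint.coe_ne_infty _)
    · rw [pt_not L hz, pt_not L hw] at h
      have h2 := OnePoint.coe_injective h
      rcases Wg.wp_inj L z w hz hw h2 with h3 | h3
      · exact Or.inl (cl_eq.2 h3)
      · exact Or.inr (cl_eq_neg.2 h3)

theorem pt_cl {z w : ℂ} (h : cl L z = cl L w) : pt L z = pt L w := by
  by_cases hz : z ∈ L.lattice
  · have hw : w ∈ L.lattice := by rw [← cl_eq_zero, ← h, cl_eq_zero]; exact hz
    rw [pt_lattice L hz, pt_lattice L hw]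
  · have hw : w ∉ L.lattice := by
      intro hw
      apply hz
      rw [← cl_eq_zero, h, cl_eq_zero]; exact hw
    rw [pt_not L hz, pt_not L hw, wp_per L h]

theorem wp_sub_mero (c : ℂ) : Meromorphic (fun w => L.weierstrassP w - c) :=
  fun z => (L.meromorphic_weierstrassP z).sub (MeromorphicAt.const _ _)

theorem wp_sub_ne_top (c z : ℂ) : meromorphicOrderAt (fun w => L.weierstrassP w - c) z ≠ ⊤ := by
  obtain ⟨u, hu, rfl⟩ := exists_wp_eq L c
  refine MeromorphicOn.meromorphicOrderAt_ne_top_of_isPreconnected (U := Set.univ) (x := 0)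
    (fun x _ => wp_sub_mero L _ x) isPreconnected_univ (Set.mem_univ _) (Set.mem_univ _) ?_
  rw [ord_sub_lattice L u (zero_mem _)]
  exact WithTop.coe_ne_top

theorem poly_mero (A : ℂ[X]) : Meromorphic (fun w => A.eval (L.weierstrassP w)) := by
  intro z
  have h : (fun w => A.eval (L.weierstrassP w))
      = fun w => ∑ i ∈ Finset.range (A.natDegree + 1), A.coeff i * L.weierstrassP w ^ i := by
    funext w
    rw [eval_eq_sum_range]
  rw [h]
  apply MeromorphicAt.fun_sum
  intro i _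
  exact (MeromorphicAt.const _ _).fun_mul ((L.meromorphic_weierstrassP z).fun_pow i)

theorem tendsto_poly_not {z : ℂ} (hz : z ∉ L.lattice) (A : ℂ[X]) :
    Tendsto (fun w => A.eval (L.weierstrassP w)) (𝓝[≠] z) (𝓝 (A.eval (L.weierstrassP z))) := by
  have h1 : ContinuousAt L.weierstrassP z := (L.analyticOnNhd_weierstrassP z hz).continuousAt
  have h2 : ContinuousAt (fun w => A.eval (L.weierstrassP w)) z :=
    ContinuousAt.comp (g := fun x => A.eval x) A.continuous.continuousAt h1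
  exact h2.tendsto.mono_left nhdsWithin_le_nhds

theorem ord_poly_lattice {z : ℂ} (hz : z ∈ L.lattice) {A : ℂ[X]} (hA : A ≠ 0) :
    meromorphicOrderAt (fun w => A.eval (L.weierstrassP w)) z
      = ((-2 * (A.natDegree : ℤ) : ℤ) : WithTop ℤ) := by
  have hm := L.meromorphic_weierstrassP z
  have h0 : meromorphicOrderAt L.weierstrassP z = ((-2 : ℤ) : WithTop ℤ) := by
    rw [L.order_weierstrassP z hz]
    rfl
  have hinv : Tendsto (L.weierstrassP⁻¹) (𝓝[≠] z) (𝓝 0) := by
    rw [tendsto_zero_iff_meromorphicOrderAt_pos hm.inv, meromorphicOrderAt_inv, h0]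
    exact WithTop.coe_lt_coe.2 (by norm_num : (0 : ℤ) < - -2)
  have hne : ∀ᶠ w in 𝓝[≠] z, L.weierstrassP w ≠ 0 := by
    rw [← meromorphicOrderAt_ne_top_iff_eventually_ne_zero hm, h0]
    exact WithTop.coe_ne_top
  have hev : (fun w => A.eval (L.weierstrassP w)) =ᶠ[𝓝[≠] z]
      (fun w => A.reverse.eval ((L.weierstrassP w)⁻¹)) * (L.weierstrassP ^ A.natDegree) := by
    filter_upwards [hne] with w hw
    have : Invertible (L.weierstrassP w) := invertibleOfNonzero hw
    have := eval₂_reverse_mul_pow (RingHom.id ℂ) (L.weierstrassP w) A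
    rw [invOf_eq_inv] at this
    rw [Pi.mul_apply, Pi.pow_apply, eval, eval, this]
  have hrev : Tendsto (fun w => A.reverse.eval ((L.weierstrassP w)⁻¹)) (𝓝[≠] z)
      (𝓝 (A.reverse.eval 0)) := by
    exact (A.reverse.continuous.tendsto 0).comp hinv
  have hrm : MeromorphicAt (fun w => A.reverse.eval ((L.weierstrassP w)⁻¹)) z := by
    have h : (fun w => A.reverse.eval ((L.weierstrassP w)⁻¹))
        = fun w => ∑ i ∈ Finset.range (A.reverse.natDegree + 1),
          A.reverse.coeff i * ((L.weierstrassP w)⁻¹) ^ i := by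
      funext w
      rw [eval_eq_sum_range]
    rw [h]
    apply MeromorphicAt.fun_sum
    intro i _
    exact (MeromorphicAt.const _ _).fun_mul (hm.fun_inv.fun_pow i)
  have hro : meromorphicOrderAt (fun w => A.reverse.eval ((L.weierstrassP w)⁻¹)) z = 0 := by
    rw [← tendsto_ne_zero_iff_meromorphicOrderAt_eq_zero hrm]
    refine ⟨_, ?_, hrev⟩
    rw [← coeff_zero_eq_eval_zero, coeff_zero_reverse]
    exact leadingCoeff_ne_zero.2 hA
  rw [meromorphicOrderAt_congr hev, meromorphicOrderAt_mul hrm (hm.pow _), hro,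
    meromorphicOrderAt_pow hm, h0, zero_add]
  have : ((A.natDegree : ℕ) : WithTop ℤ) = (((A.natDegree : ℕ) : ℤ) : WithTop ℤ) := rfl
  rw [this, ← WithTop.coe_mul]
  congr 1
  ring

/-- The order of a polynomial in `℘` at a point. -/
theorem ord_poly (z : ℂ) : ∃ e : ℤ, 1 ≤ e ∧ ∀ A : ℂ[X], A ≠ 0 →
    meromorphicOrderAt (fun w => A.eval (L.weierstrassP w)) z
      = ((e * polyOrd (pt L z) A : ℤ) : WithTop ℤ) := by
  by_cases hz : z ∈ L.lattice
  · refine ⟨2, by norm_num, fun A hA => ?_⟩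
    rw [ord_poly_lattice L hz hA, pt_lattice L hz]
    congr 1
    change -2 * (A.natDegree : ℤ) = 2 * (-(A.natDegree : ℤ))
    ring
  · set a := L.weierstrassP z with ha
    have hm := wp_sub_mero L a z
    have htop := wp_sub_ne_top L a z
    set e : ℤ := (meromorphicOrderAt (fun w => L.weierstrassP w - a) z).untop₀ with he
    have heq : meromorphicOrderAt (fun w => L.weierstrassP w - a) z = (e : WithTop ℤ) :=
      (WithTop.coe_untop₀_of_ne_top htop).symm
    have hpos : 0 < e := by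
      have h1 : 0 < meromorphicOrderAt (fun w => L.weierstrassP w - a) z := by
        rw [← tendsto_zero_iff_meromorphicOrderAt_pos hm]
        have h2 := tendsto_poly_not L hz (X - C a)
        simp only [eval_sub, eval_X, eval_C] at h2
        rwa [← ha, sub_self] at h2
      rw [heq] at h1
      exact_mod_cast h1
    refine ⟨e, hpos, fun A hA => ?_⟩
    obtain ⟨B, hB, hdvd⟩ := exists_eq_pow_rootMultiplicity_mul_and_not_dvd A hA a
    have hB0 : B.eval a ≠ 0 := by
      intro h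
      exact hdvd (dvd_iff_isRoot.2 h)
    set n := A.rootMultiplicity a with hn
    have e1 : (fun w => A.eval (L.weierstrassP w))
        = (fun w => L.weierstrassP w - a) ^ n * (fun w => B.eval (L.weierstrassP w)) := by
      funext w
      rw [Pi.mul_apply, Pi.pow_apply]
      conv_lhs => rw [hB]
      simp
    have hBo : meromorphicOrderAt (fun w => B.eval (L.weierstrassP w)) z = 0 := by
      rw [← tendsto_ne_zero_iff_meromorphicOrderAt_eq_zero (poly_mero L B z)]
      exact ⟨_, hB0, tendsto_poly_not L hz B⟩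
    rw [e1, meromorphicOrderAt_mul (hm.pow n) (poly_mero L B z), hBo, add_zero,
      meromorphicOrderAt_pow hm, heq, pt_not L hz]
    have : ((n : ℕ) : WithTop ℤ) = (((n : ℕ) : ℤ) : WithTop ℤ) := rfl
    rw [this, ← WithTop.coe_mul]
    congr 1
    change (n : ℤ) * e = e * (A.rootMultiplicity a : ℤ)
    rw [← hn]
    ring

/-- the rational function `R` of `℘` -/
def cmp (R : RatFunc ℂ) (w : ℂ) : ℂ := R.eval (RingHom.id ℂ) (L.weierstrassP w)

theorem cmp_eq (R : RatFunc ℂ) (w : ℂ) :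
    cmp L R w = R.num.eval (L.weierstrassP w) / R.denom.eval (L.weierstrassP w) := rfl

theorem cmp_mero (R : RatFunc ℂ) : Meromorphic (cmp L R) :=
  fun z => (poly_mero L R.num z).div (poly_mero L R.denom z)

/-- The order of a rational function of `℘` at a point. -/
theorem ord_cmp (z : ℂ) : ∃ e : ℤ, 1 ≤ e ∧ ∀ R : RatFunc ℂ, R ≠ 0 →
    meromorphicOrderAt (cmp L R) z = ((e * ordAt (pt L z) R : ℤ) : WithTop ℤ) := by
  obtain ⟨e, he, h⟩ := ord_poly L z
  refine ⟨e, he, fun R hR => ?_⟩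
  have e1 : cmp L R = (fun w => R.num.eval (L.weierstrassP w))
      / (fun w => R.denom.eval (L.weierstrassP w)) := rfl
  rw [e1, meromorphicOrderAt_div (poly_mero L _ z) (poly_mero L _ z),
    h _ (RatFunc.num_ne_zero hR), h _ (RatFunc.denom_ne_zero R),
    ← WithTop.LinearOrderedAddCommGroup.coe_sub, ordAt]
  congr 1
  ring

/-- `G` is, as a meromorphic function, the rational function `R` of `℘`. -/
def Rep (R : RatFunc ℂ) (G : ℂ → ℂ) : Prop := ∀ z, cmp L R =ᶠ[𝓝[≠] z] G

variable {L}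

theorem denom_ne (R : RatFunc ℂ) (z : ℂ) :
    ∀ᶠ w in 𝓝[≠] z, Polynomial.eval₂ (RingHom.id ℂ) (L.weierstrassP w) R.denom ≠ 0 := by
  obtain ⟨e, -, h⟩ := ord_poly L z
  have h1 := h R.denom (RatFunc.denom_ne_zero R)
  have h2 := (meromorphicOrderAt_ne_top_iff_eventually_ne_zero (poly_mero L R.denom z)).1
    (by rw [h1]; exact WithTop.coe_ne_top)
  exact h2

theorem Rep.C (c : ℂ) : Rep L (RatFunc.C c) (fun _ => c) := by
  intro z
  filter_upwards with w
  rw [cmp, RatFunc.eval_C]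
  rfl

theorem Rep.add {R S : RatFunc ℂ} {G H : ℂ → ℂ} (h1 : Rep L R G) (h2 : Rep L S H) :
    Rep L (R + S) (fun w => G w + H w) := by
  intro z
  filter_upwards [h1 z, h2 z, denom_ne (L := L) R z, denom_ne (L := L) S z] with w k1 k2 k3 k4
  rw [cmp, RatFunc.eval_add (f := RingHom.id ℂ) (a := L.weierstrassP w) k3 k4, ← k1, ← k2]
  rfl

theorem Rep.mul {R S : RatFunc ℂ} {G H : ℂ → ℂ} (h1 : Rep L R G) (h2 : Rep L S H) :
    Rep L (R * S) (fun w => G w * H w) := by
  intro z
  filter_upwards [h1 z, h2 z, denom_ne (L := L) R z, denom_ne (L := L) S z] with w k1 k2 k3 k4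
  rw [cmp, RatFunc.eval_mul (f := RingHom.id ℂ) (a := L.weierstrassP w) k3 k4, ← k1, ← k2]
  rfl

theorem Rep.sub_C {R : RatFunc ℂ} {G : ℂ → ℂ} (h1 : Rep L R G) (c : ℂ) :
    Rep L (R - RatFunc.C c) (fun w => G w - c) := by
  have h := h1.add (Rep.C (L := L) (-c))
  have e : R + RatFunc.C (-c) = R - RatFunc.C c := by rw [map_neg, sub_eq_add_neg]
  rw [e] at h
  intro z
  filter_upwards [h z] with w hw
  rw [hw, sub_eq_add_neg]

theorem Rep.congr {R : RatFunc ℂ} {G H : ℂ → ℂ} (h1 : Rep L R G)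
    (h2 : ∀ z, G =ᶠ[𝓝[≠] z] H) : Rep L R H := fun z => (h1 z).trans (h2 z)

theorem Rep.inv {R : RatFunc ℂ} {G : ℂ → ℂ} (h1 : Rep L R G) (hR : R ≠ 0) :
    Rep L R⁻¹ (fun w => (G w)⁻¹) := by
  intro z
  obtain ⟨e, -, ho⟩ := ord_cmp L z
  have h2 : ∀ᶠ w in 𝓝[≠] z, cmp L R w ≠ 0 := by
    rw [← meromorphicOrderAt_ne_top_iff_eventually_ne_zero (cmp_mero L R z), ho R hR]
    exact WithTop.coe_ne_top
  filter_upwards [h1 z, h2, denom_ne (L := L) R z, denom_ne (L := L) R⁻¹ z] with w k1 k2 k3 k4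
  have h3 := RatFunc.eval_mul (f := RingHom.id ℂ) (a := L.weierstrassP w) k3 k4
  rw [mul_inv_cancel₀ hR, RatFunc.eval_one] at h3
  have h4 : cmp L R w * cmp L R⁻¹ w = 1 := h3.symm
  rw [← k1]
  exact (eq_inv_of_mul_eq_one_right h4)

theorem Rep.div {R S : RatFunc ℂ} {G H : ℂ → ℂ} (h1 : Rep L R G) (h2 : Rep L S H) (hS : S ≠ 0) :
    Rep L (R / S) (fun w => G w / H w) := by
  have h := h1.mul (h2.inv hS)
  rw [← div_eq_mul_inv] at h
  intro z
  filter_upwards [h z] with w hw
  rw [hw, div_eq_mul_inv]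

/-- the order of `G` and of `R` -/
theorem Rep.ord {R : RatFunc ℂ} {G : ℂ → ℂ} (h : Rep L R G) (hR : R ≠ 0) (z : ℂ) :
    ∃ e : ℤ, 1 ≤ e ∧ meromorphicOrderAt G z = ((e * ordAt (pt L z) R : ℤ) : WithTop ℤ) := by
  obtain ⟨e, he, ho⟩ := ord_cmp L z
  exact ⟨e, he, by rw [← meromorphicOrderAt_congr (h z), ho R hR]⟩

theorem Rep.pos {R : RatFunc ℂ} {G : ℂ → ℂ} (h : Rep L R G) (hR : R ≠ 0) {z : ℂ}
    (h0 : 0 < meromorphicOrderAt G z) : 0 < ordAt (pt L z) R := by
  obtain ⟨e, he, ho⟩ := h.ord hR z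
  rw [ho] at h0
  have h1 : 0 < e * ordAt (pt L z) R := by exact_mod_cast h0
  exact (mul_pos_iff_of_pos_left (by omega)).1 h1

theorem Rep.le {R : RatFunc ℂ} {G : ℂ → ℂ} (h : Rep L R G) (hR : R ≠ 0) {z : ℂ} {n : ℤ}
    (h0 : meromorphicOrderAt G z = (n : WithTop ℤ)) (hpos : 0 < ordAt (pt L z) R) :
    ordAt (pt L z) R ≤ n := by
  obtain ⟨e, he, ho⟩ := h.ord hR z
  rw [ho] at h0
  have h1 : e * ordAt (pt L z) R = n := by exact_mod_cast h0
  nlinarith

theorem Rep.eq_of_eq {R S : RatFunc ℂ} {G : ℂ → ℂ} (h1 : Rep L R G) (h2 : Rep L S G) : R = S := by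
  by_contra hne
  have h3 : R - S ≠ 0 := sub_ne_zero.2 hne
  obtain ⟨e, -, ho⟩ := ord_cmp L 0
  have h4 : ∀ᶠ w in 𝓝[≠] (0 : ℂ), cmp L (R - S) w ≠ 0 := by
    rw [← meromorphicOrderAt_ne_top_iff_eventually_ne_zero (cmp_mero L _ 0), ho _ h3]
    exact WithTop.coe_ne_top
  have h5 : ∀ᶠ w in 𝓝[≠] (0 : ℂ), False := by
    filter_upwards [h4, h1 0, h2 0, denom_ne (L := L) (R - S) 0, denom_ne (L := L) S 0] with w k1 k2 k3 k4 k5
    apply k1
    have h6 := RatFunc.eval_add (f := RingHom.id ℂ) (a := L.weierstrassP w) k4 k5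
    rw [sub_add_cancel] at h6
    have h7 : cmp L R w = cmp L (R - S) w + cmp L S w := h6
    rw [k2, k3] at h7
    linear_combination -h7
  obtain ⟨_, h⟩ := h5.exists
  exact h

end Pool.Agent.H80.RS
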