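import Mathlib
import Pool.Agent.H80.RS.Wp

/-!
Even elliptic functions are rational functions of `℘`.
-/

open Filter Topology Polynomial
open H4EP H667R3 Pool.Agent.TH172.ER
open scoped OnePoint PeriodPair

noncomputable section

namespace Pool.Agent.H80.RS

variable {L : PeriodPair}

theorem ord_sub_const_nonneg {g : ℂ → ℂ} {z : ℂ} (hm : MeromorphicAt g z)
    (h : 0 ≤ meromorphicOrderAt g z) (c : ℂ) : 0 ≤ meromorphicOrderAt (fun w => g w - c) z := by
  obtain ⟨a, ha, hga⟩ := hm.meromorphicOrderAt_nonneg_iff.1 h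
  have h1 : (fun w => g w - c) =ᶠ[𝓝[≠] z] fun w => a w - c := by
    filter_upwards [hga] with w hw
    rw [hw]
  rw [meromorphicOrderAt_congr h1]
  exact (ha.sub analyticAt_const).meromorphicOrderAt_nonneg

theorem const_of_nonneg {g : ℂ → ℂ} (hm : Meromorphic g)
    (hper : ∀ z, ∀ l ∈ L.lattice, g (z + l) = g z) (h : ∀ z, 0 ≤ meromorphicOrderAt g z) :
    ∃ c : ℂ, ∀ z, g =ᶠ[𝓝[≠] z] fun _ => c := by
  classical
  obtain ⟨c, hc⟩ := tendsto_nhds_of_meromorphicOrderAt_nonneg (hm 0) (h 0)
  refine ⟨c, ?_⟩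
  set k : ℂ → ℂ := fun w => g w - c with hk
  have hkm : Meromorphic k := fun z => (hm z).sub (MeromorphicAt.const _ _)
  have hkper : ∀ z, ∀ l ∈ L.lattice, k (z + l) = k z := by
    intro z l hl
    simp only [hk]
    rw [hper z l hl]
  have hk0 : ∀ z, 0 ≤ meromorphicOrderAt k z := fun z => ord_sub_const_nonneg (hm z) (h z) c
  have hpos : 0 < meromorphicOrderAt k 0 := by
    rw [← tendsto_zero_iff_meromorphicOrderAt_pos (hkm 0)]
    have := hc.sub_const c
    rwa [sub_self] at this
  by_cases hex : ∃ z, meromorphicOrderAt k z = ⊤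
  · intro z
    have h1 : meromorphicOrderAt k z = ⊤ := by
      obtain ⟨y, hy⟩ := hex
      by_contra hc'
      exact MeromorphicOn.meromorphicOrderAt_ne_top_of_isPreconnected (U := Set.univ) (x := z)
        (fun x _ => hkm x) isPreconnected_univ (Set.mem_univ _) (Set.mem_univ y) hc' hy
    rw [meromorphicOrderAt_eq_top_iff] at h1
    filter_upwards [h1] with w hw
    exact sub_eq_zero.1 hw
  · exfalso
    push Not at hex
    have h1 := deg_zero (L := L) hkm hkper hex
    have hfin := od_finite (L := L) hkm hkper hex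
    rw [finsum_eq_sum_of_support_subset (s := hfin.toFinset) _
      (by rw [Set.Finite.coe_toFinset])] at h1
    have hnn : ∀ t ∈ hfin.toFinset, 0 ≤ od k t := by
      intro t _
      have h2 := hk0 (rep t)
      rw [ord_eq hkper hex, cl_rep] at h2
      exact_mod_cast h2
    have h3 : 0 < od k (0 : Torus L) := by
      have h2 := hpos
      rw [ord_eq hkper hex, cl_eq_zero.2 (zero_mem _)] at h2
      exact_mod_cast h2
    have h4 := Finset.single_le_sum hnn (a := (0 : Torus L))
      (hfin.mem_toFinset.2 (fun h => h3.ne' h))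
    omega

theorem tendsto_neg_ne : Tendsto (fun w : ℂ => -w) (𝓝[≠] 0) (𝓝[≠] 0) := by
  refine tendsto_nhdsWithin_of_tendsto_nhds_of_eventually_within _ ?_ ?_
  · have : Tendsto (fun w : ℂ => -w) (𝓝 0) (𝓝 (-0)) := (continuous_neg (G := ℂ)).tendsto 0
    rw [neg_zero] at this
    exact this.mono_left nhdsWithin_le_nhds
  · filter_upwards [self_mem_nhdsWithin] with w hw h2
    exact hw (neg_eq_zero.1 h2)

/-- the order of an even function at `0` is even -/
theorem even_ord {g : ℂ → ℂ} (hm : MeromorphicAt g 0)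
    (hev : ∀ᶠ w in 𝓝[≠] (0 : ℂ), g (-w) = g w) {k : ℤ}
    (hk : meromorphicOrderAt g 0 = (k : WithTop ℤ)) : Even k := by
  obtain ⟨a, ha, ha0, hga⟩ := (meromorphicOrderAt_eq_int_iff hm).1 hk
  by_contra hodd
  rw [Int.not_even_iff_odd] at hodd
  have h1 : ∀ᶠ w in 𝓝[≠] (0 : ℂ), a w = - a (-w) := by
    filter_upwards [hev, hga, tendsto_neg_ne.eventually hga, self_mem_nhdsWithin]
      with w h2 h3 h4 h5
    rw [h3, h4] at h2
    simp only [sub_zero, smul_eq_mul] at h2
    rw [hodd.neg_zpow] at h2
    have h6 : w ^ k ≠ 0 := zpow_ne_zero _ h5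
    apply mul_left_cancel₀ h6
    linear_combination -h2
  have c1 : Tendsto a (𝓝[≠] (0 : ℂ)) (𝓝 (a 0)) := ha.continuousAt.tendsto.mono_left
    nhdsWithin_le_nhds
  have c2 : Tendsto (fun w => - a (-w)) (𝓝[≠] (0 : ℂ)) (𝓝 (- a 0)) :=
    (c1.comp tendsto_neg_ne).neg
  have c3 := tendsto_nhds_unique (c1.congr' h1) c2
  apply ha0
  have : (2 : ℂ) * a 0 = 0 := by linear_combination c3
  simpa using this

theorem poly_of_pole (n : ℕ) : ∀ g : ℂ → ℂ, Meromorphic g →
    (∀ z, ∀ l ∈ L.lattice, g (z + l) = g z) → (∀ᶠ w in 𝓝[≠] (0 : ℂ), g (-w) = g w) →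
    (∀ z, z ∉ L.lattice → 0 ≤ meromorphicOrderAt g z) →
    (((-2 * n : ℤ)) : WithTop ℤ) ≤ meromorphicOrderAt g 0 →
    ∃ A : ℂ[X], ∀ z, g =ᶠ[𝓝[≠] z] fun w => A.eval (L.weierstrassP w) := by
  induction n with
  | zero =>
    intro g hm hper hev hnn h0
    obtain ⟨c, hc⟩ := const_of_nonneg (L := L) hm hper (by
      intro z
      by_cases hz : z ∈ L.lattice
      · have h1 : cl L z = cl L 0 := by rw [cl_eq_zero.2 hz, cl_eq_zero.2 (zero_mem _)]
        rw [ord_shift hper h1]
        simpa using h0
      · exact hnn z hz)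
    exact ⟨C c, fun z => by simpa using hc z⟩
  | succ n ih =>
    intro g hm hper hev hnn h0
    by_cases htop : meromorphicOrderAt g 0 = ⊤
    · refine ih g hm hper hev hnn ?_
      rw [htop]
      exact le_top
    · obtain ⟨k, hk⟩ := WithTop.ne_top_iff_exists.1 htop
      rw [← hk] at h0
      have h0' : -2 * ((n + 1 : ℕ) : ℤ) ≤ k := by exact_mod_cast h0
      obtain ⟨m, hm2⟩ := even_ord (hm 0) hev hk.symm
      by_cases hk2 : -2 * (n : ℤ) ≤ k
      · refine ih g hm hper hev hnn ?_
        rw [← hk]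
        exact_mod_cast hk2
      · have hk3 : k = -2 * ((n : ℤ) + 1) := by
          push_cast at h0'
          omega
        have hP := L.meromorphic_weierstrassP
        have hP0 : meromorphicOrderAt L.weierstrassP 0 = ((-2 : ℤ) : WithTop ℤ) := by
          rw [L.order_weierstrassP 0 (zero_mem _)]
          rfl
        have hPn : meromorphicOrderAt (L.weierstrassP ^ (n + 1)) 0 = (k : WithTop ℤ) := by
          rw [meromorphicOrderAt_pow (hP 0), hP0]
          have : ((n + 1 : ℕ) : WithTop ℤ) = (((n + 1 : ℕ) : ℤ) : WithTop ℤ) := rfl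
          rw [this, ← WithTop.coe_mul]
          congr 1
          rw [hk3]
          push_cast
          ring
        have hq : meromorphicOrderAt (g / L.weierstrassP ^ (n + 1)) 0 = 0 := by
          rw [meromorphicOrderAt_div (hm 0) ((hP 0).pow _), hPn, ← hk,
            ← WithTop.LinearOrderedAddCommGroup.coe_sub, sub_self]
          rfl
        obtain ⟨c, -, hc⟩ := tendsto_ne_zero_of_meromorphicOrderAt_eq_zero
          ((hm 0).div ((hP 0).pow _)) hq
        set g' : ℂ → ℂ := fun w => g w - c * L.weierstrassP w ^ (n + 1) with hg'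
        have hg'm : Meromorphic g' := fun z =>
          (hm z).sub ((MeromorphicAt.const _ _).fun_mul ((hP z).fun_pow _))
        have hg'per : ∀ z, ∀ l ∈ L.lattice, g' (z + l) = g' z := by
          intro z l hl
          simp only [hg']
          rw [hper z l hl, L.weierstrassP_add_coe z ⟨l, hl⟩]
        have hg'ev : ∀ᶠ w in 𝓝[≠] (0 : ℂ), g' (-w) = g' w := by
          filter_upwards [hev] with w hw
          simp only [hg']
          rw [hw, L.weierstrassP_neg]
        have hg'nn : ∀ z, z ∉ L.lattice → 0 ≤ meromorphicOrderAt g' z := by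
          intro z hz
          obtain ⟨a, ha, hga⟩ := (hm z).meromorphicOrderAt_nonneg_iff.1 (hnn z hz)
          have h1 : g' =ᶠ[𝓝[≠] z] fun w => a w - c * L.weierstrassP w ^ (n + 1) := by
            filter_upwards [hga] with w hw
            simp only [hg']
            rw [hw]
          rw [meromorphicOrderAt_congr h1]
          exact (ha.sub (analyticAt_const.mul
            ((L.analyticOnNhd_weierstrassP z hz).pow _))).meromorphicOrderAt_nonneg
        have hne : ∀ᶠ w in 𝓝[≠] (0 : ℂ), L.weierstrassP w ≠ 0 := by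
          rw [← meromorphicOrderAt_ne_top_iff_eventually_ne_zero (hP 0), hP0]
          exact WithTop.coe_ne_top
        have hcm : MeromorphicAt (fun w => (g / L.weierstrassP ^ (n + 1)) w - c) 0 :=
          ((hm 0).div ((hP 0).pow _)).sub (MeromorphicAt.const _ _)
        have hfac : g' =ᶠ[𝓝[≠] 0] (fun w => (g / L.weierstrassP ^ (n + 1)) w - c)
            * L.weierstrassP ^ (n + 1) := by
          filter_upwards [hne] with w hw
          simp only [hg', Pi.mul_apply, Pi.div_apply, Pi.pow_apply]
          have := pow_ne_zero (n + 1) hw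
          field_simp
        have hpos : 0 < meromorphicOrderAt (fun w => (g / L.weierstrassP ^ (n + 1)) w - c) 0 := by
          rw [← tendsto_zero_iff_meromorphicOrderAt_pos hcm]
          have := hc.sub_const c
          rwa [sub_self] at this
        have hlow : (((-2 * n : ℤ)) : WithTop ℤ) ≤ meromorphicOrderAt g' 0 := by
          by_cases ht : meromorphicOrderAt g' 0 = ⊤
          · rw [ht]; exact le_top
          · obtain ⟨j, hj⟩ := WithTop.ne_top_iff_exists.1 ht
            obtain ⟨i, hi⟩ := even_ord (hg'm 0) hg'ev hj.symm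
            have h5 := meromorphicOrderAt_congr hfac
            rw [meromorphicOrderAt_mul hcm ((hP 0).pow _), hPn] at h5
            have h6 : meromorphicOrderAt (fun w => (g / L.weierstrassP ^ (n + 1)) w - c) 0 ≠ ⊤ := by
              intro h7
              rw [h7, top_add] at h5
              exact ht h5
            obtain ⟨q, hq'⟩ := WithTop.ne_top_iff_exists.1 h6
            rw [← hq', ← hj, ← WithTop.coe_add] at h5
            rw [← hq'] at hpos
            have h8 : j = q + k := by exact_mod_cast h5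
            have h9 : 0 < q := by exact_mod_cast hpos
            rw [← hj]
            have : -2 * (n : ℤ) ≤ j := by omega
            exact_mod_cast this
        obtain ⟨A, hA⟩ := ih g' hg'm hg'per hg'ev hg'nn hlow
        refine ⟨A + C c * X ^ (n + 1), fun z => ?_⟩
        filter_upwards [hA z] with w hw
        simp only [hg'] at hw
        simp only [eval_add, eval_mul, eval_C, eval_pow, eval_X]
        linear_combination hw

theorem Rep.poly (A : ℂ[X]) :
    Rep L (algebraMap ℂ[X] (RatFunc ℂ) A) (fun w => A.eval (L.weierstrassP w)) := by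
  intro z
  filter_upwards with w
  rw [cmp, RatFunc.eval_algebraMap]
  simp [Polynomial.eval₂_id]

/-- An even elliptic function is a rational function of `℘`. -/
theorem exists_rep {g : ℂ → ℂ} (hm : Meromorphic g)
    (hper : ∀ z, ∀ l ∈ L.lattice, g (z + l) = g z) (hev : ∀ᶠ w in 𝓝[≠] (0 : ℂ), g (-w) = g w)
    (htop : ∀ z, meromorphicOrderAt g z ≠ ⊤) : ∃ R : RatFunc ℂ, Rep L R g := by
  classical
  have hfin := od_finite (L := L) hm hper htop
  set S := hfin.toFinset with hS
  set m : Torus L → ℕ := fun t => (-(od g t)).toNat with hmdef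
  set B : ℂ[X] := ∏ t ∈ S, (X - C (L.weierstrassP (rep t))) ^ m t with hB
  have hB0 : B ≠ 0 := by
    rw [hB, Finset.prod_ne_zero_iff]
    intro t _
    exact pow_ne_zero _ (X_sub_C_ne_zero _)
  set g1 : ℂ → ℂ := g * (fun w => B.eval (L.weierstrassP w)) with hg1
  have hBm := poly_mero L B
  have hg1m : Meromorphic g1 := fun z => (hm z).mul (hBm z)
  have hg1per : ∀ z, ∀ l ∈ L.lattice, g1 (z + l) = g1 z := by
    intro z l hl
    simp only [hg1, Pi.mul_apply]
    rw [hper z l hl, L.weierstrassP_add_coe z ⟨l, hl⟩]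
  have hg1ev : ∀ᶠ w in 𝓝[≠] (0 : ℂ), g1 (-w) = g1 w := by
    filter_upwards [hev] with w hw
    simp only [hg1, Pi.mul_apply]
    rw [hw, L.weierstrassP_neg]
  have hpa : ∀ (A : ℂ[X]) (z : ℂ), z ∉ L.lattice →
      0 ≤ meromorphicOrderAt (fun w => A.eval (L.weierstrassP w)) z := by
    intro A z hz
    rw [← tendsto_nhds_iff_meromorphicOrderAt_nonneg (poly_mero L A z)]
    exact ⟨_, tendsto_poly_not L hz A⟩
  have hg1nn : ∀ z, z ∉ L.lattice → 0 ≤ meromorphicOrderAt g1 z := by
    intro z hz
    rw [hg1, meromorphicOrderAt_mul (hm z) (hBm z), ord_eq hper htop]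
    by_cases ht : cl L z ∈ S
    · set t := cl L z with htd
      obtain ⟨B', hB'⟩ : ∃ B' : ℂ[X], B = (X - C (L.weierstrassP z)) ^ m t * B' := by
        refine ⟨∏ u ∈ S.erase t, (X - C (L.weierstrassP (rep u))) ^ m u, ?_⟩
        rw [hB, ← Finset.mul_prod_erase S _ ht]
        congr 4
        apply wp_per L
        rw [cl_rep]
      have e1 : (fun w => B.eval (L.weierstrassP w))
          = (fun w => L.weierstrassP w - L.weierstrassP z) ^ m t
            * (fun w => B'.eval (L.weierstrassP w)) := by
        funext w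
        rw [Pi.mul_apply, Pi.pow_apply, hB']
        simp
      have hwm := wp_sub_mero L (L.weierstrassP z) z
      have h1 : 0 < meromorphicOrderAt (fun w => L.weierstrassP w - L.weierstrassP z) z := by
        rw [← tendsto_zero_iff_meromorphicOrderAt_pos hwm]
        have h2 := tendsto_poly_not L hz (X - C (L.weierstrassP z))
        simp only [eval_sub, eval_X, eval_C] at h2
        rwa [sub_self] at h2
      obtain ⟨q, hq⟩ := WithTop.ne_top_iff_exists.1 (wp_sub_ne_top L (L.weierstrassP z) z)
      rw [← hq] at h1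
      have hq0 : 0 < q := by exact_mod_cast h1
      rw [e1, meromorphicOrderAt_mul (hwm.pow _) (poly_mero L B' z), meromorphicOrderAt_pow hwm,
        ← hq]
      have e2 : ((m t : ℕ) : WithTop ℤ) = (((m t : ℕ) : ℤ) : WithTop ℤ) := rfl
      rw [e2, ← WithTop.coe_mul]
      have h3 : 0 ≤ od g t + (m t : ℤ) * q := by
        have h4 : -(od g t) ≤ (m t : ℤ) := by
          simp only [hmdef]
          exact Int.self_le_toNat _
        have h5 : (0 : ℤ) ≤ (m t : ℤ) := Int.natCast_nonneg _
        nlinarith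
      rw [← add_assoc, ← WithTop.coe_add]
      exact add_nonneg (by exact_mod_cast h3) (hpa B' z hz)
    · have h1 : od g (cl L z) = 0 := by
        rw [hS, hfin.mem_toFinset, Function.mem_support, not_not] at ht
        exact ht
      rw [h1]
      exact add_nonneg (by exact_mod_cast le_refl (0 : ℤ)) (hpa B z hz)
  obtain ⟨k, hk⟩ := WithTop.ne_top_iff_exists.1 (htop 0)
  set n : ℕ := B.natDegree + k.natAbs with hn
  have hlow : (((-2 * n : ℤ)) : WithTop ℤ) ≤ meromorphicOrderAt g1 0 := by
    rw [hg1, meromorphicOrderAt_mul (hm 0) (hBm 0), ← hk, ord_poly_lattice L (zero_mem _) hB0,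
      ← WithTop.coe_add]
    have : -2 * (n : ℤ) ≤ k + -2 * (B.natDegree : ℤ) := by
      rw [hn]
      have h0 := neg_abs_le k
      have h1 := abs_nonneg k
      push_cast
      linarith
    exact_mod_cast this
  obtain ⟨A, hA⟩ := poly_of_pole n g1 hg1m hg1per hg1ev hg1nn hlow
  refine ⟨algebraMap ℂ[X] (RatFunc ℂ) A / algebraMap ℂ[X] (RatFunc ℂ) B, ?_⟩
  refine ((Rep.poly (L := L) A).div (Rep.poly (L := L) B) (by simpa using hB0)).congr ?_
  intro z
  obtain ⟨e, -, ho⟩ := ord_poly L z
  have h1 : ∀ᶠ w in 𝓝[≠] z, B.eval (L.weierstrassP w) ≠ 0 := by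
    rw [← meromorphicOrderAt_ne_top_iff_eventually_ne_zero (hBm z), ho B hB0]
    exact WithTop.coe_ne_top
  filter_upwards [hA z, h1] with w h2 h3
  rw [← h2]
  simp only [hg1, Pi.mul_apply]
  field_simp

end Pool.Agent.H80.RS
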