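import Mathlib
import Pool.Agent.H80.RS.Even

/-!
The elliptic function with zeros `- α + j q` and poles `α + j q`.
-/

open Filter Topology
open H4EP H667R3 Pool.Agent.TH172.ER Pool.Agent.Y442.EC
open scoped OnePoint

noncomputable section

namespace Pool.Agent.H80.RS

variable {L : PeriodPair}

/-- the poles -/
def wv (L : PeriodPair) (n : ℕ) (x : ℂ) (i : Fin (2 * n)) : ℂ :=
  x + ((((i : ℕ) : ℤ) + 1 : ℤ) : ℂ) * L.ω₁ / ((2 * n + 1 : ℕ) : ℂ)

/-- the zeros -/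
def zv (L : PeriodPair) (n : ℕ) (x : ℂ) (i : Fin (2 * n)) : ℂ :=
  -x + ((((i : ℕ) : ℤ) + 1 : ℤ) : ℂ) * L.ω₁ / ((2 * n + 1 : ℕ) : ℂ)
    + (if (i : ℕ) = 0 then ((4 * n : ℕ) : ℂ) * x else 0)

/-- the point of order `2 n + 1` -/
def qq (L : PeriodPair) (n : ℕ) : Torus L := cl L (L.ω₁ / ((2 * n + 1 : ℕ) : ℂ))

theorem cl_int_mul (k : ℤ) (z : ℂ) : cl L ((k : ℂ) * z) = k • cl L z := by
  rw [← zsmul_eq_mul]
  exact map_zsmul L.lattice.mkQ k z

theorem zsmul_qq (n : ℕ) (k : ℤ) :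
    k • qq L n = cl L ((k : ℂ) * L.ω₁ / ((2 * n + 1 : ℕ) : ℂ)) := by
  rw [qq, ← cl_int_mul, mul_div_assoc]

theorem zsmul_qq_eq_zero (n : ℕ) (k : ℤ) :
    k • qq L n = 0 ↔ ((2 * n + 1 : ℕ) : ℤ) ∣ k := by
  rw [zsmul_qq]
  have e : (k : ℂ) * L.ω₁ / ((2 * n + 1 : ℕ) : ℂ)
      = ((k : ℂ) * L.ω₁ + ((0 : ℤ) : ℂ) * L.ω₂) / ((2 * n + 1 : ℕ) : ℂ) := by
    push_cast; ring
  rw [e, frac_zero L k 0 (by omega)]
  constructor
  · exact fun h => h.1
  · exact fun h => ⟨h, dvd_zero _⟩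

theorem cl_wv (n : ℕ) (x : ℂ) (i : Fin (2 * n)) :
    cl L (wv L n x i) = cl L x + (((i : ℕ) : ℤ) + 1) • qq L n := by
  rw [wv, cl_add, zsmul_qq]

theorem cl_zv (n : ℕ) {x : ℂ} (hx : n • cl L x = 0) (i : Fin (2 * n)) :
    cl L (zv L n x i) = - cl L x + (((i : ℕ) : ℤ) + 1) • qq L n := by
  rw [zv, cl_add, cl_add, cl_neg, zsmul_qq]
  have h : cl L (if (i : ℕ) = 0 then ((4 * n : ℕ) : ℂ) * x else 0) = 0 := by
    split_ifs
    · rw [cl_nmul, mul_smul, hx, smul_zero]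
    · rw [cl_eq_zero]; exact zero_mem _
  rw [h, add_zero]

theorem idx_eq {n : ℕ} {i j : ℤ} (hi : 0 ≤ i ∧ i < 2 * n) (hj : 0 ≤ j ∧ j < 2 * n)
    (h : ((2 * n + 1 : ℕ) : ℤ) ∣ i - j) : i = j := by
  have := Int.eq_zero_of_abs_lt_dvd h (by rw [abs_lt]; push_cast; constructor <;> omega)
  omega

theorem exists_E (n : ℕ) (hn : n ≠ 0) (x : ℂ) (hx : n • cl L x = 0) (hx2 : 2 • cl L x ≠ 0) :
    ∃ E : EF L, E.Z.card = 2 * n ∧ E.W.card = 2 * n ∧
      (∀ u ∈ E.W, ∃ j : ℤ, u = cl L x + j • qq L n) ∧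
      (∀ u, u ∈ E.Z ↔ -u ∈ E.W) ∧
      (∀ δ : Torus L, (∀ u ∈ E.Z, u + δ ∈ E.Z) → δ = 0) := by
  classical
  have hidx : ∀ i : Fin (2 * n), 0 ≤ ((i : ℕ) : ℤ) ∧ ((i : ℕ) : ℤ) < 2 * n := fun i => by
    have := i.2
    omega
  have hinjw : Function.Injective (fun i => cl L (wv L n x i)) := by
    intro i j h
    simp only [cl_wv] at h
    have h1 : ((((i : ℕ) : ℤ) + 1) - (((j : ℕ) : ℤ) + 1)) • qq L n = 0 := by
      rw [sub_smul, add_left_cancel h, sub_self]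
    rw [zsmul_qq_eq_zero] at h1
    have h2 := idx_eq (hidx i) (hidx j) (by convert h1 using 1; ring)
    exact Fin.ext (by exact_mod_cast h2)
  have hinjz : Function.Injective (fun i => cl L (zv L n x i)) := by
    intro i j h
    simp only [cl_zv n hx] at h
    have h1 : ((((i : ℕ) : ℤ) + 1) - (((j : ℕ) : ℤ) + 1)) • qq L n = 0 := by
      rw [sub_smul, add_left_cancel h, sub_self]
    rw [zsmul_qq_eq_zero] at h1
    have h2 := idx_eq (hidx i) (hidx j) (by convert h1 using 1; ring)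
    exact Fin.ext (by exact_mod_cast h2)
  have hd : ∀ i j, cl L (zv L n x i) ≠ cl L (wv L n x j) := by
    intro i j h
    rw [cl_zv n hx, cl_wv] at h
    have h1 : 2 • cl L x = ((((i : ℕ) : ℤ) + 1) - (((j : ℕ) : ℤ) + 1)) • qq L n := by
      rw [sub_smul, two_smul]
      have h2 : cl L x = - cl L x + (((i : ℕ) : ℤ) + 1) • qq L n - (((j : ℕ) : ℤ) + 1) • qq L n := by
        rw [h]; abel
      nth_rewrite 2 [h2]
      abel
    have h3 : ((n : ℤ) * ((((i : ℕ) : ℤ) + 1) - (((j : ℕ) : ℤ) + 1))) • qq L n = 0 := by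
      rw [mul_smul, ← h1, natCast_zsmul, smul_comm, hx, smul_zero]
    rw [zsmul_qq_eq_zero] at h3
    have hcop : IsCoprime ((2 * n + 1 : ℕ) : ℤ) (n : ℤ) := ⟨1, -2, by push_cast; ring⟩
    have h4 := hcop.dvd_of_dvd_mul_left h3
    have h5 := idx_eq (hidx i) (hidx j) (by
      have e : ((i : ℕ) : ℤ) - ((j : ℕ) : ℤ) = (((i : ℕ) : ℤ) + 1) - (((j : ℕ) : ℤ) + 1) := by ring
      rw [e]
      exact h4)
    apply hx2
    rw [h1, h5, sub_self, zero_smul]
  have hs : ∑ i, zv L n x i = ∑ i, wv L n x i := by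
    simp only [zv, wv]
    rw [Finset.sum_add_distrib, Finset.sum_add_distrib, Finset.sum_add_distrib]
    have h1 : ∑ i : Fin (2 * n), (if (i : ℕ) = 0 then ((4 * n : ℕ) : ℂ) * x else 0)
        = ((4 * n : ℕ) : ℂ) * x := by
      rw [Finset.sum_eq_single (⟨0, by omega⟩ : Fin (2 * n))]
      · rw [if_pos rfl]
      · intro b _ hb
        rw [if_neg]
        intro h
        exact hb (Fin.ext h)
      · intro h
        exact absurd (Finset.mem_univ _) h
    rw [h1, Finset.sum_const, Finset.sum_const, Finset.card_univ, Fintype.card_fin, nsmul_eq_mul,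
      nsmul_eq_mul]
    push_cast
    ring
  set E := mk (zv L n x) (wv L n x) hinjz hinjw hd hs with hE
  have memZ : ∀ u : Torus L, u ∈ E.Z ↔ ∃ i, cl L (zv L n x i) = u := by
    intro u
    change u ∈ Finset.univ.image (fun i => cl L (zv L n x i)) ↔ _
    simp
  have memW : ∀ u : Torus L, u ∈ E.W ↔ ∃ i, cl L (wv L n x i) = u := by
    intro u
    change u ∈ Finset.univ.image (fun i => cl L (wv L n x i)) ↔ _
    simp
  have hr : ((2 * n + 1 : ℕ) : ℤ) • qq L n = 0 := (zsmul_qq_eq_zero n _).2 dvd_rfl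
  refine ⟨E, ?_, ?_, ?_, ?_, ?_⟩
  · change (Finset.univ.image (fun i => cl L (zv L n x i))).card = _
    rw [Finset.card_image_of_injective _ hinjz, Finset.card_univ, Fintype.card_fin]
  · change (Finset.univ.image (fun i => cl L (wv L n x i))).card = _
    rw [Finset.card_image_of_injective _ hinjw, Finset.card_univ, Fintype.card_fin]
  · intro u hu
    obtain ⟨i, rfl⟩ := (memW u).1 hu
    exact ⟨_, cl_wv n x i⟩
  · intro u
    rw [memZ, memW]
    constructor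
    · rintro ⟨i, rfl⟩
      refine ⟨⟨2 * n - 1 - i, by have := i.2; omega⟩, ?_⟩
      rw [cl_zv n hx, cl_wv]
      have e1 : ((((⟨2 * n - 1 - i, by have := i.2; omega⟩ : Fin (2 * n)) : ℕ) : ℤ) + 1)
          = ((2 * n + 1 : ℕ) : ℤ) - (((i : ℕ) : ℤ) + 1) := by
        have := i.2
        simp only
        omega
      rw [e1, sub_smul, hr]
      abel
    · rintro ⟨i, hi⟩
      refine ⟨⟨2 * n - 1 - i, by have := i.2; omega⟩, ?_⟩
      rw [cl_zv n hx]
      have e1 : ((((⟨2 * n - 1 - i, by have := i.2; omega⟩ : Fin (2 * n)) : ℕ) : ℤ) + 1)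
          = ((2 * n + 1 : ℕ) : ℤ) - (((i : ℕ) : ℤ) + 1) := by
        have := i.2
        simp only
        omega
      rw [cl_wv] at hi
      rw [e1, sub_smul, hr, ← neg_neg u, ← hi]
      abel
  · intro δ hδ
    have h2n : 0 < 2 * n := by omega
    obtain ⟨i, hi⟩ := (memZ _).1 (hδ _ ((memZ _).2 ⟨⟨0, h2n⟩, rfl⟩))
    rw [cl_zv n hx, cl_zv n hx] at hi
    have hδ1 : δ = ((i : ℕ) : ℤ) • qq L n := by
      have e0 : ((((⟨0, h2n⟩ : Fin (2 * n)) : ℕ) : ℤ) + 1) = 1 := by simp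
      rw [e0, one_smul, add_smul, one_smul] at hi
      have : δ = (-cl L x + qq L n + δ) - (-cl L x + qq L n) := by abel
      rw [this, ← hi]
      abel
    by_cases h0 : (i : ℕ) = 0
    · rw [hδ1, h0]
      simp
    · exfalso
      obtain ⟨j, hj⟩ := (memZ _).1 (hδ _ ((memZ _).2 ⟨⟨2 * n - i, by omega⟩, rfl⟩))
      rw [cl_zv n hx, cl_zv n hx, hδ1] at hj
      have e1 : ((((⟨2 * n - i, by omega⟩ : Fin (2 * n)) : ℕ) : ℤ) + 1)
          = ((2 * n + 1 : ℕ) : ℤ) - ((i : ℕ) : ℤ) := by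
        have := i.2
        simp only
        omega
      rw [e1, sub_smul, hr] at hj
      have h5 : (((j : ℕ) : ℤ) + 1) • qq L n = 0 := by
        have : (((j : ℕ) : ℤ) + 1) • qq L n
            = (-cl L x + (((j : ℕ) : ℤ) + 1) • qq L n) + cl L x := by abel
        rw [this, hj]
        abel
      rw [zsmul_qq_eq_zero] at h5
      have h6 := Int.le_of_dvd (by omega) h5
      have := j.2
      push_cast at h6
      omega

/-- the multiplier `M₁ = (2 n + 1) (1 + n l)` -/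
theorem mul_W {n : ℕ} {x : ℂ} (hx : n • cl L x = 0) (l : ℕ) (j : ℤ) :
    ((2 * n + 1) * (1 + n * l)) • (cl L x + j • qq L n) = cl L x := by
  have h1 : ((2 * n + 1) * (1 + n * l)) • cl L x = cl L x := by
    have : (2 * n + 1) * (1 + n * l) = (2 + l * (2 * n + 1)) * n + 1 := by ring
    rw [this, add_smul, mul_smul, hx, smul_zero, one_smul, zero_add]
  have hr : ((2 * n + 1 : ℕ) : ℤ) • qq L n = 0 := (zsmul_qq_eq_zero n _).2 dvd_rfl
  have h2 : ((2 * n + 1) * (1 + n * l)) • (j • qq L n) = 0 := by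
    rw [smul_comm, mul_comm, mul_smul, ← natCast_zsmul (qq L n) (2 * n + 1), hr, smul_zero,
      smul_zero]
  rw [smul_add, h1, h2, add_zero]

end Pool.Agent.H80.RS
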