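import Mathlib
import Pool.Agent.H80.RS.Ord

/-!
The canonical degree on the rational elliptic surface.
-/

open Polynomial
open scoped OnePoint

namespace Pool.Agent.H80.RS

theorem loc3 (α b : ℤ) (hα : 0 ≤ α) (hb : 0 ≤ b) :
    (max 0 (min α b) + max 0 (min (α - b) b)) = min α (2 * b) := by
  omega

theorem loc2 (α b : ℤ) (hb : b < 0) :
    (max 0 (min α b) + max 0 (min (α - b) b)) = 0 := by
  omega

theorem loc (a b α β γ : ℤ) (h1 : a < 0 → α = a ∧ β = a ∧ γ = a)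
    (h2 : 0 ≤ a → 0 ≤ α ∧ 0 ≤ β ∧ 0 ≤ γ)
    (h3 : 0 < α → β = 0 ∧ γ = 0) (h4 : 0 < β → α = 0 ∧ γ = 0) (h5 : 0 < γ → α = 0 ∧ β = 0) :
    3 * min 0 (min a b) + ((max 0 (min α b) + max 0 (min (α - b) b))
      + (max 0 (min β b) + max 0 (min (β - b) b)) + (max 0 (min γ b) + max 0 (min (γ - b) b)))
      + (max 0 (min (a - b) (-b)) + max 0 (min (a - b) (-a)) + max 0 (min (a - b) (b - 2 * a)))
      = 2 * b + min 0 (α + β + γ - 2 * b) := by
  rcases lt_or_ge b 0 with hb | hb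
  · rw [loc2 α b hb, loc2 β b hb, loc2 γ b hb]
    rcases lt_or_ge a 0 with ha | ha
    · obtain ⟨rfl, rfl, rfl⟩ := h1 ha
      clear h1 h2 h3 h4 h5
      rcases lt_or_ge b γ with h | h
      · have e1 : min γ b = b := min_eq_right h.le
        rw [e1, min_eq_right hb.le]
        have e2 : min (γ - b) (-b) = γ - b := by omega
        rw [e2]
        omega
      · have e1 : min γ b = γ := min_eq_left h
        rw [e1]
        omega
    · obtain ⟨k1, k2, k3⟩ := h2 ha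
      clear h1 h2 h3 h4 h5
      have e1 : min a b = b := by omega
      have e2 : max 0 (min (a - b) (-b)) = -b := by omega
      have e3 : max 0 (min (a - b) (-a)) = 0 := by omega
      have e4 : max 0 (min (a - b) (b - 2 * a)) = 0 := by omega
      rw [e1, e2, e3, e4]
      have e5 : min 0 (α + β + γ - 2 * b) = 0 := by omega
      rw [e5]
      omega
  · rcases lt_or_ge a 0 with ha | ha
    · obtain ⟨rfl, rfl, rfl⟩ := h1 ha
      clear h1 h2 h3 h4 h5
      omega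
    · obtain ⟨k1, k2, k3⟩ := h2 ha
      rw [loc3 α b k1 hb, loc3 β b k2 hb, loc3 γ b k3 hb]
      have e2 : max 0 (min (a - b) (-b)) = 0 := by omega
      have e3 : max 0 (min (a - b) (-a)) = 0 := by omega
      have e4 : max 0 (min (a - b) (b - 2 * a)) = 0 := by omega
      have e1 : min 0 (min a b) = 0 := by omega
      rw [e1, e2, e3, e4]
      clear h1 h2 e1 e2 e3 e4
      rcases lt_or_ge 0 α with h | h
      · obtain ⟨q1, q2⟩ := h3 h
        subst q1 q2
        omega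
      · rcases lt_or_ge 0 β with h' | h'
        · obtain ⟨q1, q2⟩ := h4 h'
          subst q1 q2
          omega
        · have q1 : α = 0 := by omega
          have q2 : β = 0 := by omega
          subst q1 q2
          omega

namespace RationalCurve

variable (Γ : RationalCurve)

theorem X_ne : Γ.X ≠ 0 := by
  have := Γ.X_nonconst 0
  rwa [map_zero] at this

theorem Y_ne : Γ.Y ≠ 0 := by
  have := Γ.Y_nonconst 0
  rwa [map_zero] at this

/-- the parameter `λ = (x - e 0) (x - e 1) (x - e 2) / y ^ 2` of the pencil of cubics -/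
noncomputable def lam (e : Fin 3 → ℂ) : RatFunc ℂ :=
  (Γ.X - RatFunc.C (e 0)) * (Γ.X - RatFunc.C (e 1)) * (Γ.X - RatFunc.C (e 2)) / Γ.Y ^ 2

theorem ordAt_lam (e : Fin 3 → ℂ) (p : OnePoint ℂ) : ordAt p (Γ.lam e)
    = ordAt p (Γ.X - RatFunc.C (e 0)) + ordAt p (Γ.X - RatFunc.C (e 1))
      + ordAt p (Γ.X - RatFunc.C (e 2)) - 2 * ordAt p Γ.Y := by
  have n : ∀ c, Γ.X - RatFunc.C c ≠ 0 := fun c => sub_ne_zero.2 (Γ.X_nonconst c)
  rw [lam, ordAt_div p (mul_ne_zero (mul_ne_zero (n _) (n _)) (n _)) (pow_ne_zero 2 Γ.Y_ne),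
    ordAt_mul p (mul_ne_zero (n _) (n _)) (n _), ordAt_mul p (n _) (n _), ordAt_sq p Γ.Y_ne]

theorem mult_support (u v : RatFunc ℂ) :
    (Function.support fun p : OnePoint ℂ => max 0 (min (ordAt p u) (ordAt p v))).Finite := by
  refine (ordAt_finite u).subset ?_
  intro p hp h
  apply hp
  change max 0 (min (ordAt p u) (ordAt p v)) = 0
  rw [h]
  omega

theorem degree_support :
    (Function.support fun p : OnePoint ℂ => min 0 (min (ordAt p Γ.X) (ordAt p Γ.Y))).Finite := by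
  refine ((ordAt_finite Γ.X).union (ordAt_finite Γ.Y)).subset ?_
  intro p hp
  by_contra hc
  rw [Set.mem_union, not_or] at hc
  apply hp
  have h1 : ordAt p Γ.X = 0 := not_not.1 hc.1
  have h2 : ordAt p Γ.Y = 0 := not_not.1 hc.2
  change min 0 (min (ordAt p Γ.X) (ordAt p Γ.Y)) = 0
  rw [h1, h2]
  rfl

theorem min_support (g : RatFunc ℂ) :
    (Function.support fun p : OnePoint ℂ => min 0 (ordAt p g)).Finite := by
  refine (ordAt_finite g).subset ?_
  intro p hp h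
  apply hp
  change min 0 (ordAt p g) = 0
  rw [h]
  rfl

/-- The canonical degree in terms of the degree of `λ` along the curve. -/
theorem canonicalDegree_eq (e : Fin 3 → ℂ) (he : Function.Injective e) (a b c : ℂ) :
    Γ.canonicalDegree e a b c = ∑ᶠ p : OnePoint ℂ, min 0 (ordAt p (Γ.lam e))
      + mult (Γ.X - RatFunc.C a) (Γ.Y - RatFunc.C b) + mult (Γ.X - RatFunc.C c) Γ.Y := by
  have n : ∀ c, Γ.X - RatFunc.C c ≠ 0 := fun c => sub_ne_zero.2 (Γ.X_nonconst c)
  have key : -3 * Γ.degree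
      + ∑ i : Fin 3, (mult (Γ.X - RatFunc.C (e i)) Γ.Y
          + mult ((Γ.X - RatFunc.C (e i)) / Γ.Y) Γ.Y)
      + (mult (Γ.X / Γ.Y) (1 / Γ.Y) + mult (Γ.X / Γ.Y) (1 / Γ.X)
          + mult (Γ.X / Γ.Y) (Γ.Y / Γ.X ^ 2))
      = ∑ᶠ p : OnePoint ℂ, min 0 (ordAt p (Γ.lam e)) := by
    classical
    -- a common finite set
    set F : Finset (OnePoint ℂ) := (ordAt_finite Γ.X).toFinset ∪ (ordAt_finite Γ.Y).toFinset
      ∪ ((ordAt_finite (Γ.X - RatFunc.C (e 0))).toFinset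
      ∪ (ordAt_finite (Γ.X - RatFunc.C (e 1))).toFinset
      ∪ (ordAt_finite (Γ.X - RatFunc.C (e 2))).toFinset) with hF
    have hFz : ∀ p, p ∉ F → ordAt p Γ.X = 0 ∧ ordAt p Γ.Y = 0
        ∧ ordAt p (Γ.X - RatFunc.C (e 0)) = 0 ∧ ordAt p (Γ.X - RatFunc.C (e 1)) = 0
        ∧ ordAt p (Γ.X - RatFunc.C (e 2)) = 0 := by
      intro p hp
      simp only [hF, Finset.mem_union, not_or, Set.Finite.mem_toFinset, Set.mem_ofPred_eq,
        not_not] at hp
      tauto
    have hsum : ∀ g : OnePoint ℂ → ℤ, (∀ p, p ∉ F → g p = 0) → ∑ᶠ p, g p = ∑ p ∈ F, g p := by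
      intro g hg
      apply finsum_eq_sum_of_support_subset
      intro p hp
      by_contra hc
      exact hp (hg p hc)
    have o1 : ∀ p, ordAt p (Γ.X / Γ.Y) = ordAt p Γ.X - ordAt p Γ.Y := fun p =>
      ordAt_div p Γ.X_ne Γ.Y_ne
    have o2 : ∀ p, ordAt p (1 / Γ.Y) = - ordAt p Γ.Y := fun p => by
      rw [ordAt_div p one_ne_zero Γ.Y_ne, ordAt_one, zero_sub]
    have o3 : ∀ p, ordAt p (1 / Γ.X) = - ordAt p Γ.X := fun p => by
      rw [ordAt_div p one_ne_zero Γ.X_ne, ordAt_one, zero_sub]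
    have o4 : ∀ p, ordAt p (Γ.Y / Γ.X ^ 2) = ordAt p Γ.Y - 2 * ordAt p Γ.X := fun p => by
      rw [ordAt_div p Γ.Y_ne (pow_ne_zero 2 Γ.X_ne), ordAt_sq p Γ.X_ne]
    have o5 : ∀ p i, ordAt p ((Γ.X - RatFunc.C (e i)) / Γ.Y)
        = ordAt p (Γ.X - RatFunc.C (e i)) - ordAt p Γ.Y := fun p i =>
      ordAt_div p (n _) Γ.Y_ne
    rw [Fin.sum_univ_three]
    unfold degree mult
    simp only [o1, o2, o3, o4, o5, ordAt_lam]
    rw [neg_mul_neg]
    have hY : ∑ p ∈ F, ordAt p Γ.Y = 0 := by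
      rw [← hsum _ (fun p hp => (hFz p hp).2.1)]
      exact ordAt_sum _
    rw [hsum _ (fun p hp => by rw [(hFz p hp).1, (hFz p hp).2.1]; rfl),
      hsum _ (fun p hp => by rw [(hFz p hp).2.2.1, (hFz p hp).2.1]; rfl),
      hsum _ (fun p hp => by rw [(hFz p hp).2.2.1, (hFz p hp).2.1]; rfl),
      hsum _ (fun p hp => by rw [(hFz p hp).2.2.2.1, (hFz p hp).2.1]; rfl),
      hsum _ (fun p hp => by rw [(hFz p hp).2.2.2.1, (hFz p hp).2.1]; rfl),
      hsum _ (fun p hp => by rw [(hFz p hp).2.2.2.2, (hFz p hp).2.1]; rfl),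
      hsum _ (fun p hp => by rw [(hFz p hp).2.2.2.2, (hFz p hp).2.1]; rfl),
      hsum _ (fun p hp => by rw [(hFz p hp).1, (hFz p hp).2.1]; rfl),
      hsum _ (fun p hp => by rw [(hFz p hp).1, (hFz p hp).2.1]; rfl),
      hsum _ (fun p hp => by rw [(hFz p hp).1, (hFz p hp).2.1]; rfl),
      hsum _ (fun p hp => by
        rw [(hFz p hp).2.2.1, (hFz p hp).2.2.2.1, (hFz p hp).2.2.2.2, (hFz p hp).2.1]; rfl)]
    rw [Finset.mul_sum]
    simp only [← Finset.sum_add_distrib]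
    have hgoal : ∑ p ∈ F, (2 * ordAt p Γ.Y + min 0 (ordAt p (Γ.X - RatFunc.C (e 0))
        + ordAt p (Γ.X - RatFunc.C (e 1)) + ordAt p (Γ.X - RatFunc.C (e 2))
        - 2 * ordAt p Γ.Y)) = ∑ p ∈ F, min 0 (ordAt p (Γ.X - RatFunc.C (e 0))
        + ordAt p (Γ.X - RatFunc.C (e 1)) + ordAt p (Γ.X - RatFunc.C (e 2))
        - 2 * ordAt p Γ.Y) := by
      rw [Finset.sum_add_distrib, ← Finset.mul_sum, hY, mul_zero, zero_add]
    rw [← hgoal]
    apply Finset.sum_congr rfl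
    intro p _
    apply loc
    · intro h
      exact ⟨(ordAt_sub_C p Γ.X_nonconst _).1 h, (ordAt_sub_C p Γ.X_nonconst _).1 h,
        (ordAt_sub_C p Γ.X_nonconst _).1 h⟩
    · intro h
      exact ⟨(ordAt_sub_C p Γ.X_nonconst _).2 h, (ordAt_sub_C p Γ.X_nonconst _).2 h,
        (ordAt_sub_C p Γ.X_nonconst _).2 h⟩
    · intro h
      exact ⟨ordAt_sub_C_pos p Γ.X_nonconst (he.ne (by decide)) h,
        ordAt_sub_C_pos p Γ.X_nonconst (he.ne (by decide)) h⟩
    · intro h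
      exact ⟨ordAt_sub_C_pos p Γ.X_nonconst (he.ne (by decide)) h,
        ordAt_sub_C_pos p Γ.X_nonconst (he.ne (by decide)) h⟩
    · intro h
      exact ⟨ordAt_sub_C_pos p Γ.X_nonconst (he.ne (by decide)) h,
        ordAt_sub_C_pos p Γ.X_nonconst (he.ne (by decide)) h⟩
  rw [canonicalDegree, key]

end RationalCurve

end Pool.Agent.H80.RS
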