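import Mathlib
import Pool.Agent.H80.RS.Cons

/-!
The function `f = h(N z) / h(z)` satisfies `f(z) f(-z) = 1`; generic finiteness.
-/

open Filter Topology
open H4EP H667R3 Pool.Agent.TH172.ER Pool.Agent.Y442.EC
open scoped OnePoint

noncomputable section

namespace Pool.Agent.H80.RS

variable {L : PeriodPair}

theorem finite_bad {P : ℂ → Prop} (hper : ∀ z w, cl L z = cl L w → P z → P w)
    (h : ∀ z, ∀ᶠ w in 𝓝[≠] z, P w) : {t : Torus L | ¬ P (rep t)}.Finite := by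
  set K := Metric.closedBall (0:ℂ) (‖L.ω₁‖ + ‖L.ω₂‖)
  have h2 : {x : ℂ | P x} ∈ codiscreteWithin K := by
    rw [mem_codiscreteWithin]
    intro x _
    rw [Filter.disjoint_principal_right]
    filter_upwards [h x] with w hw
    rw [Set.mem_compl_iff, Set.mem_sdiff, not_and, not_not]
    intro _
    exact hw
  have h3 : (K \ {x : ℂ | P x}).Finite :=
    (isCompact_closedBall _ _).finite_sdiff_of_mem_codiscreteWithin h2
  refine (h3.image (cl L)).subset ?_
  intro t ht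
  obtain ⟨z, hz, hzt⟩ := exists_rep_ball L t
  refine ⟨z, ⟨hz, ?_⟩, hzt⟩
  intro hc
  apply ht
  exact hper z (rep t) (by rw [hzt, cl_rep]) hc

theorem tendsto_mul_ne {N : ℕ} (hN : N ≠ 0) (z : ℂ) :
    Tendsto (fun w : ℂ => (N : ℂ) * w) (𝓝[≠] z) (𝓝[≠] ((N : ℂ) * z)) := by
  have hN' : (N : ℂ) ≠ 0 := by exact_mod_cast hN
  refine tendsto_nhdsWithin_of_tendsto_nhds_of_eventually_within _ ?_ ?_
  · have : ContinuousAt (fun w : ℂ => (N : ℂ) * w) z := by fun_prop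
    exact this.tendsto.mono_left nhdsWithin_le_nhds
  · filter_upwards [self_mem_nhdsWithin] with w hw h2
    exact hw (mul_left_cancel₀ hN' h2)

theorem tendsto_neg_ne' (z : ℂ) : Tendsto (fun w : ℂ => -w) (𝓝[≠] z) (𝓝[≠] (-z)) := by
  refine tendsto_nhdsWithin_of_tendsto_nhds_of_eventually_within _ ?_ ?_
  · have : ContinuousAt (fun w : ℂ => -w) z := by fun_prop
    exact this.tendsto.mono_left nhdsWithin_le_nhds
  · filter_upwards [self_mem_nhdsWithin] with w hw h2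
    exact hw (neg_injective h2)

theorem comp_neg_mero {g : ℂ → ℂ} (hg : Meromorphic g) : Meromorphic (fun z => g (-z)) := by
  intro z
  have hd : deriv (fun z : ℂ => -z) z ≠ 0 := by
    rw [deriv_neg]
    norm_num
  exact (meromorphicAt_comp_iff_of_deriv_ne_zero (f := g) (by fun_prop) hd).2 (hg _)

theorem comp_neg_ord (g : ℂ → ℂ) (z : ℂ) :
    meromorphicOrderAt (fun z => g (-z)) z = meromorphicOrderAt g (-z) := by
  have hd : deriv (fun z : ℂ => -z) z ≠ 0 := by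
    rw [deriv_neg]
    norm_num
  have := meromorphicOrderAt_comp_of_deriv_ne_zero (f := g) (g := fun z : ℂ => -z) (x := z)
    (by fun_prop) hd
  exact this

theorem ind_neg {E : EF L} (hZW : ∀ u, u ∈ E.Z ↔ -u ∈ E.W) (t : Torus L) :
    ind E.Z E.W (-t) = - ind E.Z E.W t := by
  classical
  have h1 : -t ∈ E.Z ↔ t ∈ E.W := by rw [hZW, neg_neg]
  have h2 : -t ∈ E.W ↔ t ∈ E.Z := by rw [hZW]
  simp only [ind, h1, h2]
  ring

/-- `h(z) h(-z)` is constant -/
theorem hh_const (E : EF L) (hZW : ∀ u, u ∈ E.Z ↔ -u ∈ E.W) :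
    ∃ κ : ℂ, κ ≠ 0 ∧ ∀ z, ∀ᶠ w in 𝓝[≠] z, E.h w * E.h (-w) = κ := by
  have hm : Meromorphic (fun w => E.h w * E.h (-w)) := fun z =>
    (E.mero z).fun_mul (comp_neg_mero E.mero z)
  have hord : ∀ z, meromorphicOrderAt (fun w => E.h w * E.h (-w)) z = 0 := by
    intro z
    have e : (fun w => E.h w * E.h (-w)) = E.h * (fun w => E.h (-w)) := rfl
    rw [e, meromorphicOrderAt_mul (E.mero z) (comp_neg_mero E.mero z), comp_neg_ord, E.ord, E.ord,
      cl_neg, ind_neg hZW, ← WithTop.coe_add, add_neg_cancel]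
    rfl
  have hper : ∀ z, ∀ l ∈ L.lattice, E.h (z + l) * E.h (-(z + l)) = E.h z * E.h (-z) := by
    intro z l hl
    rw [E.per z l hl]
    congr 1
    rw [neg_add, E.per (-z) (-l) (neg_mem hl)]
  obtain ⟨κ, hκ⟩ := const_of_nonneg (L := L) hm hper (fun z => by rw [hord z])
  refine ⟨κ, ?_, hκ⟩
  rintro rfl
  have h1 : meromorphicOrderAt (fun w => E.h w * E.h (-w)) 0 = ⊤ := by
    rw [meromorphicOrderAt_eq_top_iff]
    exact hκ 0
  rw [hord 0] at h1
  exact WithTop.zero_ne_top h1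

theorem f_inv (E : EF L) (hZW : ∀ u, u ∈ E.Z ↔ -u ∈ E.W) {N : ℕ} (hN : N ≠ 0) (z₀ : ℂ) :
    ∀ᶠ z in 𝓝[≠] z₀, E.f N 0 z * E.f N 0 (-z) = 1 := by
  obtain ⟨κ, hκ, h⟩ := hh_const E hZW
  filter_upwards [h z₀, (tendsto_mul_ne hN z₀).eventually (h ((N : ℂ) * z₀))] with z h1 h2
  rw [EF.f, EF.f, add_zero, add_zero, mul_neg, div_mul_div_comm, h1, h2, div_self hκ]

theorem f_ord_neg (E : EF L) (hZW : ∀ u, u ∈ E.Z ↔ -u ∈ E.W) (N : ℕ) (t : Torus L) :
    E.of N 0 (-t) = - E.of N 0 t := by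
  rw [EF.of, EF.of, smul_neg, ind_neg hZW, add_zero, add_zero, ind_neg hZW]
  ring

end Pool.Agent.H80.RS
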