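import Mathlib
import Pool.Agent.H80.RS.Inv

/-!
The roots `e 0`, `e 1`, `e 2` of the cubic.
-/

open Filter Topology
open H4EP H667R3 Pool.Agent.TH172.ER Pool.Agent.Y442.EC
open scoped OnePoint PeriodPair

noncomputable section

namespace Pool.Agent.H80.RS

variable (L : PeriodPair)

/-- The values of `℘` at the half periods. -/
def halfValues : Fin 3 → ℂ :=
  ![L.weierstrassP (L.ω₁ / 2), L.weierstrassP (L.ω₂ / 2), L.weierstrassP (L.ω₁ / 2 + L.ω₂ / 2)]

theorem root_half {w : ℂ} (hw : w ∈ L.lattice) (hw2 : w / 2 ∉ L.lattice) :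
    4 * L.weierstrassP (w / 2) ^ 3 - L.g₂ * L.weierstrassP (w / 2) - L.g₃ = 0 := by
  have h1 := L.derivWeierstrassP_sq (w / 2) hw2
  rw [wp'_half_eq_zero L hw] at h1
  rw [← h1]
  norm_num

theorem halfValues_injective : Function.Injective (halfValues L) := by
  have k1 := L.ω₁_div_two_notMem_lattice
  have k2 := L.ω₂_div_two_notMem_lattice
  have k3 := half_add_half_notMem L
  have n12 : L.weierstrassP (L.ω₁ / 2) ≠ L.weierstrassP (L.ω₂ / 2) := by
    intro h
    rw [wp_eq_iff L k1 k2] at h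
    rcases h with h | h
    · exact k3 h
    · exact half_sub_half_notMem L h
  have n13 : L.weierstrassP (L.ω₁ / 2) ≠ L.weierstrassP (L.ω₁ / 2 + L.ω₂ / 2) := by
    intro h
    rw [wp_eq_iff L k1 k3] at h
    rcases h with h | h
    · apply k2
      have : L.ω₂ / 2 = (L.ω₁ / 2 + (L.ω₁ / 2 + L.ω₂ / 2)) - L.ω₁ := by ring
      rw [this]
      exact sub_mem h L.ω₁_mem_lattice
    · apply k2
      have : L.ω₂ / 2 = -(L.ω₁ / 2 - (L.ω₁ / 2 + L.ω₂ / 2)) := by ring
      rw [this]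
      exact neg_mem h
  have n23 : L.weierstrassP (L.ω₂ / 2) ≠ L.weierstrassP (L.ω₁ / 2 + L.ω₂ / 2) := by
    intro h
    rw [wp_eq_iff L k2 k3] at h
    rcases h with h | h
    · apply k1
      have : L.ω₁ / 2 = (L.ω₂ / 2 + (L.ω₁ / 2 + L.ω₂ / 2)) - L.ω₂ := by ring
      rw [this]
      exact sub_mem h L.ω₂_mem_lattice
    · apply k1
      have : L.ω₁ / 2 = -(L.ω₂ / 2 - (L.ω₁ / 2 + L.ω₂ / 2)) := by ring
      rw [this]
      exact neg_mem h
  intro i j h
  fin_cases i <;> fin_cases j <;> simp_all [halfValues]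

theorem roots_id {g2 g3 a b c : ℂ} (ha : 4 * a ^ 3 - g2 * a - g3 = 0)
    (hb : 4 * b ^ 3 - g2 * b - g3 = 0) (hc : 4 * c ^ 3 - g2 * c - g3 = 0) (hab : a ≠ b)
    (hac : a ≠ c) (hbc : b ≠ c) (x : ℂ) :
    4 * x ^ 3 - g2 * x - g3 = 4 * ((x - a) * (x - b) * (x - c)) := by
  have h1 : 4 * (a ^ 2 + a * b + b ^ 2) - g2 = 0 := by
    apply mul_left_cancel₀ (sub_ne_zero.2 hab)
    linear_combination ha - hb
  have h2 : 4 * (a ^ 2 + a * c + c ^ 2) - g2 = 0 := by
    apply mul_left_cancel₀ (sub_ne_zero.2 hac)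
    linear_combination ha - hc
  have h3 : a + b + c = 0 := by
    apply mul_left_cancel₀ (sub_ne_zero.2 hbc)
    linear_combination (h1 - h2) / 4
  have h4 : g2 = 4 * (a ^ 2 + a * b + b ^ 2) := by linear_combination -h1
  have h5 : g3 = 4 * a ^ 3 - g2 * a := by linear_combination -ha
  have h6 : c = - a - b := by linear_combination h3
  rw [h5, h4, h6]
  ring

theorem wpd_sq {z : ℂ} (hz : z ∉ L.lattice) : L.derivWeierstrassP z ^ 2
    = 4 * ((L.weierstrassP z - halfValues L 0) * (L.weierstrassP z - halfValues L 1)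
      * (L.weierstrassP z - halfValues L 2)) := by
  have hi := halfValues_injective L
  have r0 := root_half L L.ω₁_mem_lattice L.ω₁_div_two_notMem_lattice
  have r1 := root_half L L.ω₂_mem_lattice L.ω₂_div_two_notMem_lattice
  have r2 := root_half L (add_mem L.ω₁_mem_lattice L.ω₂_mem_lattice) (by
    rw [add_div]
    exact half_add_half_notMem L)
  rw [add_div] at r2
  rw [L.derivWeierstrassP_sq z hz]
  exact roots_id r0 r1 r2 (hi.ne (show (0 : Fin 3) ≠ 1 by decide))
    (hi.ne (show (0 : Fin 3) ≠ 2 by decide)) (hi.ne (show (1 : Fin 3) ≠ 2 by decide)) _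

end Pool.Agent.H80.RS
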