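import Mathlib
import Pool.Agent.H80.RS.Roots

/-!
The coordinate functions of the curve.
-/

open Filter Topology
open H4EP H667R3 Pool.Agent.TH172.ER Pool.Agent.Y442.EC
open scoped OnePoint PeriodPair

noncomputable section

namespace Pool.Agent.H80.RS

variable {L : PeriodPair}

/-- the first coordinate -/
def Xf (L : PeriodPair) (m : ℕ) (z : ℂ) : ℂ := L.weierstrassP ((m : ℂ) * z)

/-- the second coordinate -/
def Yf (L : PeriodPair) (m : ℕ) (f : ℂ → ℂ) (z : ℂ) : ℂ :=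
  L.derivWeierstrassP ((m : ℂ) * z) * (f z - 1) / (2 * (f z + 1))

theorem comp_mul_mero {g : ℂ → ℂ} (hg : Meromorphic g) {m : ℕ} (hm : m ≠ 0) :
    Meromorphic (fun z => g ((m : ℂ) * z)) := by
  intro z
  have ha : AnalyticAt ℂ (fun z : ℂ => (m : ℂ) * z) z := analyticAt_const.mul analyticAt_id
  have hd : deriv (fun z : ℂ => (m : ℂ) * z) z ≠ 0 := by
    rw [deriv_const_mul_field]
    simpa using hm
  exact (meromorphicAt_comp_iff_of_deriv_ne_zero (f := g) ha hd).2 (hg _)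

theorem comp_mul_ord (g : ℂ → ℂ) {m : ℕ} (hm : m ≠ 0) (z : ℂ) :
    meromorphicOrderAt (fun z => g ((m : ℂ) * z)) z = meromorphicOrderAt g ((m : ℂ) * z) := by
  have ha : AnalyticAt ℂ (fun z : ℂ => (m : ℂ) * z) z := analyticAt_const.mul analyticAt_id
  have hd : deriv (fun z : ℂ => (m : ℂ) * z) z ≠ 0 := by
    rw [deriv_const_mul_field]
    simpa using hm
  exact meromorphicOrderAt_comp_of_deriv_ne_zero (f := g) (g := fun z : ℂ => (m : ℂ) * z) ha hd

theorem Xf_mero {m : ℕ} (hm : m ≠ 0) : Meromorphic (Xf L m) :=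
  comp_mul_mero L.meromorphic_weierstrassP hm

theorem mul_per (m : ℕ) (z : ℂ) {l : ℂ} (hl : l ∈ L.lattice) :
    cl L ((m : ℂ) * (z + l)) = cl L ((m : ℂ) * z) := by
  rw [cl_nmul, cl_nmul, cl_add, cl_eq_zero.2 hl, add_zero]

theorem wpd_per {z w : ℂ} (h : cl L z = cl L w) : L.derivWeierstrassP z = L.derivWeierstrassP w := by
  have h1 := cl_eq.1 h
  have h2 := L.derivWeierstrassP_add_coe w ⟨z - w, h1⟩
  simp only [add_sub_cancel] at h2
  exact h2

theorem Xf_per (m : ℕ) : ∀ z, ∀ l ∈ L.lattice, Xf L m (z + l) = Xf L m z := fun z _ hl =>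
  wp_per L (mul_per m z hl)

theorem Yf_per (m : ℕ) {f : ℂ → ℂ} (hf : ∀ z, ∀ l ∈ L.lattice, f (z + l) = f z) :
    ∀ z, ∀ l ∈ L.lattice, Yf L m f (z + l) = Yf L m f z := by
  intro z l hl
  rw [Yf, Yf, wpd_per (mul_per m z hl), hf z l hl]

theorem Xf_even (m : ℕ) (z : ℂ) : Xf L m (-z) = Xf L m z := by
  rw [Xf, Xf, mul_neg, L.weierstrassP_neg]

theorem Xf_ord0 {m : ℕ} (hm : m ≠ 0) :
    meromorphicOrderAt (Xf L m) 0 = ((-2 : ℤ) : WithTop ℤ) := by
  have h := comp_mul_ord L.weierstrassP hm 0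
  have e : Xf L m = fun z => L.weierstrassP ((m : ℂ) * z) := rfl
  rw [e, h, mul_zero, L.order_weierstrassP 0 (zero_mem _)]
  rfl

theorem ne_top_of {g : ℂ → ℂ} (hg : Meromorphic g) {z₀ : ℂ} (h : meromorphicOrderAt g z₀ ≠ ⊤)
    (z : ℂ) : meromorphicOrderAt g z ≠ ⊤ :=
  MeromorphicOn.meromorphicOrderAt_ne_top_of_isPreconnected (U := Set.univ) (x := z₀)
    (fun x _ => hg x) isPreconnected_univ (Set.mem_univ _) (Set.mem_univ z) h

theorem Xf_ne_top {m : ℕ} (hm : m ≠ 0) (z : ℂ) : meromorphicOrderAt (Xf L m) z ≠ ⊤ :=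
  ne_top_of (Xf_mero hm) (z₀ := 0) (by rw [Xf_ord0 hm]; exact WithTop.coe_ne_top) z

/-- near every point, `m z` is not a half period -/
theorem ev_not_half {m : ℕ} (hm : m ≠ 0) (z : ℂ) : ∀ᶠ w in 𝓝[≠] z, 2 * ((m : ℂ) * w) ∉ L.lattice := by
  have h2m : 2 * m ≠ 0 := by omega
  have h1 : ∀ᶠ w in 𝓝[≠] ((2 * m : ℕ) * z : ℂ), w ∉ L.lattice := by
    filter_upwards [self_mem_nhdsWithin, mem_nhdsWithin_of_mem_nhds
      (L.compl_lattice_sdiff_singleton_mem_nhds ((2 * m : ℕ) * z : ℂ))] with w hw hw'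
    simp_all
  filter_upwards [(tendsto_mul_ne h2m z).eventually h1] with w hw
  intro h
  apply hw
  have : ((2 * m : ℕ) : ℂ) * w = 2 * ((m : ℂ) * w) := by push_cast; ring
  rw [this]
  exact h

theorem not_of_two {z : ℂ} (h : 2 * z ∉ L.lattice) : z ∉ L.lattice := by
  intro h1
  apply h
  have : (2 : ℂ) * z = z + z := by ring
  rw [this]
  exact add_mem h1 h1

theorem ev_lin_ne {f : ℂ → ℂ} (hf : Meromorphic f) (hn : NDeg f) (c z : ℂ) :
    ∀ᶠ w in 𝓝[≠] z, f w - c ≠ 0 := by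
  have h1 := (meromorphicOrderAt_ne_top_iff_eventually_ne_zero (lin_mero hf c 1 z)).1
    (hn c 1 (Or.inr one_ne_zero) z)
  filter_upwards [h1] with w hw
  intro h
  apply hw
  rw [lin, one_mul, h]

theorem Yf_mero {m : ℕ} (hm : m ≠ 0) {f : ℂ → ℂ} (hf : Meromorphic f) : Meromorphic (Yf L m f) := by
  intro z
  have h1 := comp_mul_mero L.meromorphic_derivWeierstrassP hm z
  exact (h1.fun_mul ((hf z).fun_sub (MeromorphicAt.const _ _))).fun_div
    ((MeromorphicAt.const _ _).fun_mul ((hf z).fun_add (MeromorphicAt.const _ _)))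

theorem Yf_ne_top {m : ℕ} (hm : m ≠ 0) {f : ℂ → ℂ} (hf : Meromorphic f) (hn : NDeg f) (z : ℂ) :
    meromorphicOrderAt (Yf L m f) z ≠ ⊤ := by
  rw [meromorphicOrderAt_ne_top_iff_eventually_ne_zero (Yf_mero hm hf z)]
  filter_upwards [ev_not_half hm z, ev_lin_ne hf hn 1 z, ev_lin_ne hf hn (-1) z] with w h1 h2 h3
  rw [sub_neg_eq_add] at h3
  rw [Yf]
  exact div_ne_zero (mul_ne_zero (Wg.wpd_ne L _ h1) h2) (mul_ne_zero two_ne_zero h3)

theorem Yf_even (m : ℕ) {f : ℂ → ℂ} (hf : Meromorphic f) (hn : NDeg f)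
    (hinv : ∀ z₀, ∀ᶠ z in 𝓝[≠] z₀, f z * f (-z) = 1) (z₀ : ℂ) :
    ∀ᶠ z in 𝓝[≠] z₀, Yf L m f (-z) = Yf L m f z := by
  filter_upwards [hinv z₀, ev_lin_ne hf hn (-1) z₀] with z h1 h2
  rw [sub_neg_eq_add] at h2
  have h0 : f z ≠ 0 := left_ne_zero_of_mul_eq_one h1
  have h3 : f (-z) = (f z)⁻¹ := eq_inv_of_mul_eq_one_right h1
  have h4 : f (-z) + 1 ≠ 0 := by
    rw [h3]
    intro h
    apply h2
    field_simp at h
    linear_combination h
  rw [Yf, Yf, mul_neg, L.derivWeierstrassP_neg, h3]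
  have h5 : (f z)⁻¹ + 1 ≠ 0 := by rw [← h3]; exact h4
  rw [div_eq_div_iff (mul_ne_zero two_ne_zero h5) (mul_ne_zero two_ne_zero h2)]
  field_simp
  ring

/-- the relation between the coordinate functions and `f` -/
theorem lam_sub_one {m : ℕ} (hm : m ≠ 0) {f : ℂ → ℂ} (hf : Meromorphic f) (hn : NDeg f) (z₀ : ℂ) :
    ∀ᶠ z in 𝓝[≠] z₀, (Xf L m z - halfValues L 0) * (Xf L m z - halfValues L 1)
      * (Xf L m z - halfValues L 2) / (Yf L m f z * Yf L m f z) - 1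
      = 4 * f z / ((f z - 1) * (f z - 1)) := by
  filter_upwards [ev_not_half (L := L) hm z₀, ev_lin_ne hf hn 1 z₀, ev_lin_ne hf hn (-1) z₀]
    with z h1 h2 h3
  rw [sub_neg_eq_add] at h3
  have h4 := Wg.wpd_ne L _ h1
  have h5 := wpd_sq L (not_of_two h1)
  have h6 : (Xf L m z - halfValues L 0) * (Xf L m z - halfValues L 1)
      * (Xf L m z - halfValues L 2) = L.derivWeierstrassP ((m : ℂ) * z) ^ 2 / 4 := by
    rw [Xf, h5]
    ring
  rw [h6, Yf]
  set P := L.derivWeierstrassP ((m : ℂ) * z)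
  set F := f z
  field_simp
  ring

end Pool.Agent.H80.RS
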