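import Mathlib
import Pool.Agent.H80.RS.Fun

/-!
The coordinate functions at the special points.
-/

open Filter Topology
open H4EP H667R3 Pool.Agent.TH172.ER Pool.Agent.Y442.EC
open scoped OnePoint PeriodPair

noncomputable section

namespace Pool.Agent.H80.RS

variable {L : PeriodPair}

theorem tendsto_comp_mul {g : ℂ → ℂ} {m : ℕ} {z : ℂ} (hg : ContinuousAt g ((m : ℂ) * z)) :
    Tendsto (fun w => g ((m : ℂ) * w)) (𝓝[≠] z) (𝓝 (g ((m : ℂ) * z))) := by
  have : ContinuousAt (fun w : ℂ => (m : ℂ) * w) z := by fun_prop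
  have h2 : ContinuousAt (fun w => g ((m : ℂ) * w)) z := ContinuousAt.comp (g := g) hg this
  exact h2.tendsto.mono_left nhdsWithin_le_nhds

theorem not_lattice_of_cl {z u : ℂ} (h : cl L z = cl L u) (hu : u ∉ L.lattice) :
    z ∉ L.lattice := by
  intro hz
  apply hu
  rw [← cl_eq_zero, ← h, cl_eq_zero]
  exact hz

theorem Xf_pos {m : ℕ} (hm : m ≠ 0) {z u : ℂ} (hu : u ∉ L.lattice)
    (h : cl L ((m : ℂ) * z) = cl L u) :
    0 < meromorphicOrderAt (fun w => Xf L m w - L.weierstrassP u) z := by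
  have hz := not_lattice_of_cl h hu
  rw [← tendsto_zero_iff_meromorphicOrderAt_pos ((Xf_mero hm z).fun_sub (MeromorphicAt.const _ _))]
  have h1 := tendsto_comp_mul (m := m) (z := z) (L.analyticOnNhd_weierstrassP _ hz).continuousAt
  have h2 := h1.sub_const (L.weierstrassP u)
  rw [wp_per L h, sub_self] at h2
  exact h2

theorem Yf_tendsto_pole {m : ℕ} {f : ℂ → ℂ} (hf : Meromorphic f) (hn : NDeg f) {z u : ℂ}
    (hu : u ∉ L.lattice) (h : cl L ((m : ℂ) * z) = cl L u) (hp : meromorphicOrderAt f z < 0) :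
    Tendsto (Yf L m f) (𝓝[≠] z) (𝓝 (L.derivWeierstrassP u / 2)) := by
  have hz := not_lattice_of_cl h hu
  have h1 := tendsto_comp_mul (m := m) (z := z)
    (L.analyticOnNhd_derivWeierstrassP _ hz).continuousAt
  rw [wpd_per h] at h1
  have hf1 : MeromorphicAt (fun w => f w + 1) z := (hf z).fun_add (MeromorphicAt.const _ _)
  have ho : meromorphicOrderAt (fun w => f w + 1) z < 0 := by
    have e : (fun w => f w + 1) = f + fun _ => (1 : ℂ) := rfl
    rw [e, meromorphicOrderAt_add_eq_left_of_lt (MeromorphicAt.const _ _)]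
    · exact hp
    · rw [ord_one]
      exact hp
  have h2 : Tendsto (fun w => (f w + 1)⁻¹) (𝓝[≠] z) (𝓝 0) :=
    tendsto_inv₀_cobounded.comp (tendsto_cobounded_of_meromorphicOrderAt_neg ho)
  have h3 : Tendsto (fun w => L.derivWeierstrassP ((m : ℂ) * w) / 2 * (1 - 2 * (f w + 1)⁻¹))
      (𝓝[≠] z) (𝓝 (L.derivWeierstrassP u / 2 * (1 - 2 * 0))) :=
    (h1.div_const 2).mul (tendsto_const_nhds.sub (h2.const_mul 2))
  rw [mul_zero, sub_zero, mul_one] at h3
  refine h3.congr' ?_
  filter_upwards [ev_lin_ne hf hn (-1) z] with w hw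
  rw [sub_neg_eq_add] at hw
  rw [Yf]
  field_simp
  ring

theorem Yf_pos_pole {m : ℕ} (hm : m ≠ 0) {f : ℂ → ℂ} (hf : Meromorphic f) (hn : NDeg f) {z u : ℂ}
    (hu : u ∉ L.lattice) (h : cl L ((m : ℂ) * z) = cl L u) (hp : meromorphicOrderAt f z < 0) :
    0 < meromorphicOrderAt (fun w => Yf L m f w - L.derivWeierstrassP u / 2) z := by
  rw [← tendsto_zero_iff_meromorphicOrderAt_pos
    ((Yf_mero hm hf z).fun_sub (MeromorphicAt.const _ _))]
  have h2 := (Yf_tendsto_pole hf hn hu h hp).sub_const (L.derivWeierstrassP u / 2)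
  rw [sub_self] at h2
  exact h2

theorem Yf_pos_one {m : ℕ} (hm : m ≠ 0) {f : ℂ → ℂ} (hf : Meromorphic f) {z u : ℂ}
    (hu : u ∉ L.lattice) (h : cl L ((m : ℂ) * z) = cl L u)
    (hp : 0 < meromorphicOrderAt (fun w => f w - 1) z) :
    0 < meromorphicOrderAt (Yf L m f) z := by
  have hz := not_lattice_of_cl h hu
  rw [← tendsto_zero_iff_meromorphicOrderAt_pos (Yf_mero hm hf z)]
  have h1 := tendsto_comp_mul (m := m) (z := z)
    (L.analyticOnNhd_derivWeierstrassP _ hz).continuousAt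
  have hfm : MeromorphicAt (fun w => f w - 1) z := (hf z).fun_sub (MeromorphicAt.const _ _)
  have h2 := (tendsto_zero_iff_meromorphicOrderAt_pos hfm).2 hp
  have h3 : Tendsto (fun w => 2 * ((f w - 1) + 2)) (𝓝[≠] z) (𝓝 (2 * (0 + 2))) :=
    (h2.add_const 2).const_mul 2
  have h4 := (h1.mul h2).div h3 (by norm_num)
  rw [mul_zero, zero_div] at h4
  refine h4.congr ?_
  intro w
  simp only [Pi.div_apply]
  rw [Yf]
  congr 2
  ring

/-- orders of `f` and `f - 1` -/
theorem ord_cases {f : ℂ → ℂ} (hf : Meromorphic f) (hn : NDeg f) (z : ℂ) :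
    (oz f z < 0 → oz (lin f 1 1) z = oz f z) ∧ (0 < oz f z → oz (lin f 1 1) z = 0) ∧
    (oz f z = 0 → 0 ≤ oz (lin f 1 1) z) := by
  have h := min_oz hf hn z (p := 1) (q := 1) (p' := 0) (q' := 1) (by norm_num)
  have e : lin f 0 1 = f := by
    funext w
    simp [lin]
  rw [e] at h
  have h2 := min_oz hf hn z (p := 1) (q := 1) (p' := 1) (q' := 0) (by norm_num)
  have e2 : oz (lin f 1 0) z = 0 := by
    have e3 : lin f 1 0 = fun _ => (-1 : ℂ) := by
      funext w
      simp [lin]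
    classical
    rw [oz, e3, meromorphicOrderAt_const, if_neg (by norm_num)]
    rfl
  rw [e2] at h2
  refine ⟨fun h3 => ?_, fun h3 => ?_, fun h3 => ?_⟩ <;> omega

theorem Hf_ord {f : ℂ → ℂ} (hf : Meromorphic f) (hn : NDeg f) (z : ℂ) :
    meromorphicOrderAt (fun w => 4 * f w / ((f w - 1) * (f w - 1))) z
      = ((oz f z - 2 * oz (lin f 1 1) z : ℤ) : WithTop ℤ) := by
  classical
  have e : (fun w => 4 * f w / ((f w - 1) * (f w - 1)))
      = ((fun _ => (4 : ℂ)) * f) / (lin f 1 1 * lin f 1 1) := by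
    funext w
    simp [lin]
  have hl := lin_mero hf 1 1 z
  rw [e, meromorphicOrderAt_div ((MeromorphicAt.const _ _).mul (hf z)) (hl.mul hl),
    meromorphicOrderAt_mul (MeromorphicAt.const _ _) (hf z), meromorphicOrderAt_mul hl hl,
    meromorphicOrderAt_const, if_neg (by norm_num), zero_add, oz_eq (hn.self z),
    oz_eq (hn 1 1 (Or.inl one_ne_zero) z), ← WithTop.coe_add,
    ← WithTop.LinearOrderedAddCommGroup.coe_sub]
  congr 1
  ring

end Pool.Agent.H80.RS
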