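import Mathlib
import Pool.Agent.H80.RS.Loc
import Pool.Agent.H80.RS.Pts

/-!
The degree of the plane curves.
-/

open Filter Topology
open H4EP H667R3 Pool.Agent.TH172.ER Pool.Agent.Y442.EC
open scoped OnePoint PeriodPair

noncomputable section

namespace Pool.Agent.H80.RS

variable {L : PeriodPair}

theorem vo_top' (g : ℂ → ℂ) (z : ℂ) : vo g 1 0 z = - min (oz g z) 0 := vo_top g z

/-- the number of the poles of a rational function of `℘` -/
theorem poles_le {G : ℂ → ℂ} (hG : Meromorphic G)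
    (hper : ∀ z, ∀ l ∈ L.lattice, G (z + l) = G z) (htop : ∀ z, meromorphicOrderAt G z ≠ ⊤)
    {R : RatFunc ℂ} (hR : R ≠ 0) (h : Rep L R G) :
    ∑ᶠ p : OnePoint ℂ, max 0 (-(ordAt p R)) ≤ ∑ᶠ t : Torus L, max 0 (-(oz G (rep t))) := by
  classical
  have hfin : (Function.support fun p : OnePoint ℂ => max 0 (-(ordAt p R))).Finite := by
    refine (ordAt_finite R).subset ?_
    intro p hp h'
    apply hp
    change max 0 (-(ordAt p R)) = 0
    rw [h']
    rfl
  have hfin2 : (Function.support fun t : Torus L => max 0 (-(oz G (rep t)))).Finite := by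
    refine (od_finite (L := L) hG hper htop).subset ?_
    intro t ht h'
    apply ht
    change max 0 (-(oz G (rep t))) = 0
    have : oz G (rep t) = 0 := h'
    rw [this]
    rfl
  rw [finsum_eq_sum_of_support_subset (s := hfin.toFinset) _ (by rw [Set.Finite.coe_toFinset]),
    finsum_eq_sum_of_support_subset (s := hfin2.toFinset) _ (by rw [Set.Finite.coe_toFinset])]
  have key : ∀ p : OnePoint ℂ, ∃ t : Torus L, pt L (rep t) = p ∧
      (0 < -(ordAt p R) → -(ordAt p R) ≤ -(oz G (rep t))) := by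
    intro p
    obtain ⟨z, rfl⟩ := pt_surj L p
    refine ⟨cl L z, pt_cl L (cl_rep _), ?_⟩
    intro hp
    rw [← pt_cl L (cl_rep (cl L z))] at hp ⊢
    obtain ⟨e, he, ho⟩ := h.ord hR (rep (cl L z))
    rw [oz_eq (htop _)] at ho
    have h1 : oz G (rep (cl L z)) = e * ordAt (pt L (rep (cl L z))) R := by exact_mod_cast ho
    rw [h1]
    nlinarith
  choose τ hτ using key
  have hinj : Function.Injective τ := by
    intro p q hpq
    rw [← (hτ p).1, ← (hτ q).1, hpq]
  have hpos : ∀ p ∈ hfin.toFinset, 0 < -(ordAt p R) := by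
    intro p hp
    rw [hfin.mem_toFinset, Function.mem_support] at hp
    omega
  have h1 : ∑ p ∈ hfin.toFinset, max 0 (-(ordAt p R))
      ≤ ∑ p ∈ hfin.toFinset, max 0 (-(oz G (rep (τ p)))) := by
    apply Finset.sum_le_sum
    intro p hp
    have h2 := (hτ p).2 (hpos p hp)
    omega
  refine h1.trans ?_
  rw [← Finset.sum_image (s := hfin.toFinset) (g := τ) (f := fun t => max 0 (-(oz G (rep t))))
    hinj.injOn]
  apply Finset.sum_le_sum_of_subset_of_nonneg
  · intro t ht
    obtain ⟨p, hp, rfl⟩ := Finset.mem_image.1 ht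
    rw [hfin2.mem_toFinset, Function.mem_support]
    have h2 := (hτ p).2 (hpos p hp)
    have h3 := hpos p hp
    omega
  · intro t _ _
    exact le_max_left _ _

/-- the poles of `g(m z)`, if all poles of `g` are in the lattice and of order at most `k` -/
theorem poles_mul {g : ℂ → ℂ} {m : ℕ} (hm : m ≠ 0) (k : ℕ)
    (h0 : ∀ z, z ∉ L.lattice → 0 ≤ oz g z) (h1 : ∀ z, z ∈ L.lattice → -(k : ℤ) ≤ oz g z) :
    ∑ᶠ t : Torus L, max 0 (-(oz (fun z => g ((m : ℂ) * z)) (rep t))) ≤ (k : ℤ) * (m : ℤ) ^ 2 := by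
  classical
  have hoz : ∀ z, oz (fun z => g ((m : ℂ) * z)) z = oz g ((m : ℂ) * z) := by
    intro z
    rw [oz, comp_mul_ord g hm, oz]
  have hin : ∀ t : Torus L, t ∉ fib m 0 → (m : ℂ) * rep t ∉ L.lattice := by
    intro t ht h
    apply ht
    rw [mem_fib hm, ← cl_rep t, ← cl_nmul, cl_eq_zero]
    exact h
  rw [finsum_eq_sum_of_support_subset (s := fib m 0)]
  · have h2 : ∀ t ∈ fib m (0 : Torus L), max 0 (-(oz (fun z => g ((m : ℂ) * z)) (rep t)))
        ≤ (k : ℤ) := by
      intro t ht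
      rw [mem_fib hm] at ht
      have h3 : (m : ℂ) * rep t ∈ L.lattice := by
        rw [← cl_eq_zero, cl_nmul, cl_rep, ht]
      have h4 := h1 _ h3
      rw [hoz]
      omega
    refine (Finset.sum_le_sum h2).trans ?_
    rw [Finset.sum_const, card_fib hm, nsmul_eq_mul]
    push_cast
    linarith
  · intro t ht
    by_contra hc
    apply ht
    have h3 := h0 _ (hin t hc)
    change max 0 (-(oz (fun z => g ((m : ℂ) * z)) (rep t))) = 0
    rw [hoz]
    omega

theorem wp_poles0 {z : ℂ} (hz : z ∉ L.lattice) : 0 ≤ oz L.weierstrassP z := by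
  have h := (L.analyticOnNhd_weierstrassP z hz).meromorphicOrderAt_nonneg
  have htop : meromorphicOrderAt L.weierstrassP z ≠ ⊤ := by
    have := wp_sub_ne_top L 0 z
    simpa using this
  rw [oz_eq htop] at h
  exact_mod_cast h

theorem wp_poles1 {z : ℂ} (hz : z ∈ L.lattice) : oz L.weierstrassP z = -2 := by
  rw [oz, L.order_weierstrassP z hz]
  rfl

theorem wpd_ne_top (z : ℂ) : meromorphicOrderAt L.derivWeierstrassP z ≠ ⊤ := by
  rw [meromorphicOrderAt_ne_top_iff_eventually_ne_zero (L.meromorphic_derivWeierstrassP z)]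
  filter_upwards [ev_not_half (L := L) one_ne_zero z] with w hw
  rw [Nat.cast_one, one_mul] at hw
  exact Wg.wpd_ne L _ hw

theorem wpd_poles0 {z : ℂ} (hz : z ∉ L.lattice) : 0 ≤ oz L.derivWeierstrassP z := by
  have h := (L.analyticOnNhd_derivWeierstrassP z hz).meromorphicOrderAt_nonneg
  rw [oz_eq (wpd_ne_top z)] at h
  exact_mod_cast h

theorem wpd_poles1 {z : ℂ} (hz : z ∈ L.lattice) : -3 ≤ oz L.derivWeierstrassP z := by
  have h0 : meromorphicOrderAt L.weierstrassP z = ((-2 : ℤ) : WithTop ℤ) := by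
    rw [L.order_weierstrassP z hz]
    rfl
  have h1 := meromorphicOrderAt_deriv_eq_sub_one (n := -2) (by norm_num) h0
  rw [L.deriv_weierstrassP] at h1
  rw [oz, h1]
  norm_num

/-- the poles of `f - 1 / f + 1` -/
theorem poles_mob {f : ℂ → ℂ} (hf : Meromorphic f) (hper : ∀ z, ∀ l ∈ L.lattice, f (z + l) = f z)
    (hn : NDeg f) : ∑ᶠ t : Torus L, max 0 (-(oz (mob 1 (-1) 1 1 f) (rep t)))
      = ∑ᶠ t : Torus L, vo f 1 0 (rep t) := by
  have hdet : (1 : ℂ) * 1 - -1 * 1 ≠ 0 := by norm_num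
  rw [← sum_mob hf hper hn hdet]
  apply finsum_congr
  intro t
  rw [vo_top]
  omega

theorem Yf_eq_mul {m : ℕ} (f : ℂ → ℂ) : Yf L m f
    = (fun _ => (1 / 2 : ℂ)) * ((fun z => L.derivWeierstrassP ((m : ℂ) * z)) * mob 1 (-1) 1 1 f) := by
  funext z
  simp only [Yf, Pi.mul_apply, mob]
  rw [mul_comm (2 : ℂ), ← div_div]
  ring

theorem Yf_oz {m : ℕ} (hm : m ≠ 0) {f : ℂ → ℂ} (hf : Meromorphic f) (hn : NDeg f) (z : ℂ) :
    oz (Yf L m f) z = oz (fun z => L.derivWeierstrassP ((m : ℂ) * z)) z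
      + oz (mob 1 (-1) 1 1 f) z := by
  classical
  have hdet : (1 : ℂ) * 1 - -1 * 1 ≠ 0 := by norm_num
  have h1 : MeromorphicAt (fun z => L.derivWeierstrassP ((m : ℂ) * z)) z :=
    comp_mul_mero L.meromorphic_derivWeierstrassP hm z
  have h2 := mob_mero hf 1 (-1) 1 1 z
  have h3 : meromorphicOrderAt (fun z => L.derivWeierstrassP ((m : ℂ) * z)) z ≠ ⊤ := by
    rw [comp_mul_ord _ hm]
    exact wpd_ne_top _
  have h4 := (mob_ndeg hf hn hdet).self z
  rw [oz, Yf_eq_mul, meromorphicOrderAt_mul (MeromorphicAt.const _ _) (h1.mul h2),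
    meromorphicOrderAt_const, if_neg (by norm_num), zero_add, meromorphicOrderAt_mul h1 h2,
    oz_eq h3, oz_eq h4, ← WithTop.coe_add, WithTop.untop₀_coe]

theorem support_mul {g : ℂ → ℂ} {m : ℕ} (hm : m ≠ 0)
    (h0 : ∀ z, z ∉ L.lattice → 0 ≤ oz g z) :
    (Function.support fun t : Torus L => max 0 (-(oz (fun z => g ((m : ℂ) * z)) (rep t)))).Finite := by
  refine (fib m (0 : Torus L)).finite_toSet.subset ?_
  intro t ht
  by_contra hc
  apply ht
  have h : (m : ℂ) * rep t ∉ L.lattice := by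
    intro h
    apply hc
    rw [Finset.mem_coe, mem_fib hm, ← cl_rep t, ← cl_nmul, cl_eq_zero]
    exact h
  have h3 := h0 _ h
  change max 0 (-(oz (fun z => g ((m : ℂ) * z)) (rep t))) = 0
  rw [oz, comp_mul_ord g hm]
  rw [oz] at h3
  omega

theorem Yf_poles {m : ℕ} (hm : m ≠ 0) {f : ℂ → ℂ} (hf : Meromorphic f)
    (hper : ∀ z, ∀ l ∈ L.lattice, f (z + l) = f z) (hn : NDeg f) :
    ∑ᶠ t : Torus L, max 0 (-(oz (Yf L m f) (rep t)))
      ≤ 3 * (m : ℤ) ^ 2 + ∑ᶠ t : Torus L, vo f 1 0 (rep t) := by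
  classical
  have hdet : (1 : ℂ) * 1 - -1 * 1 ≠ 0 := by norm_num
  have h1 := poles_mul (L := L) (g := L.derivWeierstrassP) hm 3 (fun z hz => wpd_poles0 hz)
    (fun z hz => wpd_poles1 hz)
  rw [← poles_mob hf hper hn]
  have hf1 := support_mul (L := L) (g := L.derivWeierstrassP) hm (fun z hz => wpd_poles0 hz)
  have hf2 : (Function.support fun t : Torus L =>
      max 0 (-(oz (mob 1 (-1) 1 1 f) (rep t)))).Finite := by
    refine (od_finite (L := L) (mob_mero hf 1 (-1) 1 1) (mob_per hper 1 (-1) 1 1)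
      (mob_ndeg hf hn hdet).self).subset ?_
    intro t ht h'
    apply ht
    change max 0 (-(oz (mob 1 (-1) 1 1 f) (rep t))) = 0
    have : oz (mob 1 (-1) 1 1 f) (rep t) = 0 := h'
    rw [this]
    rfl
  refine le_trans ?_ (add_le_add_left h1 _)
  rw [← finsum_add_distrib hf1 hf2]
  have hf3 : (Function.support fun t : Torus L => max 0 (-(oz (Yf L m f) (rep t)))).Finite := by
    refine (hf1.union hf2).subset ?_
    intro t ht
    by_contra hc
    rw [Set.mem_union, not_or, Function.mem_support, Function.mem_support, not_not, not_not] at hc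
    apply ht
    change max 0 (-(oz (Yf L m f) (rep t))) = 0
    rw [Yf_oz hm hf hn]
    omega
  have hf4 : (Function.support fun t : Torus L =>
      max 0 (-(oz (fun z => L.derivWeierstrassP ((m : ℂ) * z)) (rep t)))
        + max 0 (-(oz (mob 1 (-1) 1 1 f) (rep t)))).Finite :=
    (hf1.union hf2).subset (Function.support_add _ _)
  refine finsum_le_finsum' hf3 hf4 ?_
  intro t
  change max 0 (-(oz (Yf L m f) (rep t))) ≤ _
  rw [Yf_oz hm hf hn]
  dsimp only
  omega

theorem Xf_poles {m : ℕ} (hm : m ≠ 0) :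
    ∑ᶠ t : Torus L, max 0 (-(oz (Xf L m) (rep t))) ≤ 2 * (m : ℤ) ^ 2 :=
  poles_mul (L := L) (g := L.weierstrassP) hm 2 (fun _ hz => wp_poles0 hz)
    (fun _ hz => (wp_poles1 hz).ge)

/-- the degree of the curve is at most the sum of the degrees of its coordinates -/
theorem degree_le (Γ : RationalCurve) : Γ.degree ≤ ∑ᶠ p : OnePoint ℂ, max 0 (-(ordAt p Γ.X))
    + ∑ᶠ p : OnePoint ℂ, max 0 (-(ordAt p Γ.Y)) := by
  have h : ∀ R : RatFunc ℂ, (Function.support fun p : OnePoint ℂ => max 0 (-(ordAt p R))).Finite := by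
    intro R
    refine (ordAt_finite R).subset ?_
    intro p hp h'
    apply hp
    change max 0 (-(ordAt p R)) = 0
    rw [h']
    rfl
  rw [← finsum_add_distrib (h _) (h _), RationalCurve.degree, ← finsum_neg_distrib]
  refine finsum_le_finsum' ?_ (((h Γ.X).union (h Γ.Y)).subset (Function.support_add _ _)) ?_
  · refine ((ordAt_finite Γ.X).union (ordAt_finite Γ.Y)).subset ?_
    intro p hp
    by_contra hc
    rw [Set.mem_union, not_or, Set.mem_setOf_eq, Set.mem_setOf_eq, not_not, not_not] at hc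
    apply hp
    change -(min 0 (min (ordAt p Γ.X) (ordAt p Γ.Y))) = 0
    rw [hc.1, hc.2]
    rfl
  · intro p
    dsimp only
    omega

end Pool.Agent.H80.RS
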