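import Mathlib
import Pool.Agent.H80.RS.Loc
import Pool.Agent.H80.RS.Pts
import Pool.Agent.H80.RS.Degree

/-!
Rational curves with large canonical degree on a blow-up of the plane in eleven points.
-/

open Filter Topology
open H4EP H667R3 Pool.Agent.TH172.ER Pool.Agent.Y442.EC
open scoped OnePoint PeriodPair

noncomputable section

namespace Pool.Agent.H80.RS

variable {L : PeriodPair}

theorem mult_ge {u v : RatFunc ℂ} (S : Finset (Torus L))
    (hinj : ∀ s ∈ S, ∀ t ∈ S, pt L (rep s) = pt L (rep t) → s = t)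
    (hu : ∀ t ∈ S, 0 < ordAt (pt L (rep t)) u) (hv : ∀ t ∈ S, 0 < ordAt (pt L (rep t)) v) :
    (S.card : ℤ) ≤ RationalCurve.mult u v := by
  classical
  have hfin := RationalCurve.mult_support u v
  rw [RationalCurve.mult, finsum_eq_sum_of_support_subset (s := hfin.toFinset) _
    (by rw [Set.Finite.coe_toFinset])]
  have h1 : (S.image (fun t => pt L (rep t))).card = S.card :=
    Finset.card_image_of_injOn (fun s hs t ht h => hinj s hs t ht h)
  have hsub : S.image (fun t => pt L (rep t)) ⊆ hfin.toFinset := by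
    intro p hp
    obtain ⟨t, ht, rfl⟩ := Finset.mem_image.1 hp
    rw [hfin.mem_toFinset, Function.mem_support]
    have := hu t ht
    have := hv t ht
    omega
  rw [← h1, Finset.card_eq_sum_ones]
  push_cast
  refine le_trans (Finset.sum_le_sum ?_) (Finset.sum_le_sum_of_subset_of_nonneg hsub
    (fun p _ _ => le_max_left _ _))
  intro p hp
  obtain ⟨t, ht, rfl⟩ := Finset.mem_image.1 hp
  have := hu t ht
  have := hv t ht
  omega

theorem sum_le_vo {f : ℂ → ℂ} (hf : Meromorphic f)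
    (hper : ∀ z, ∀ l ∈ L.lattice, f (z + l) = f z) (hn : NDeg f) (g : RatFunc ℂ)
    (h : ∀ p, 0 < ordAt p g → ∃ t : Torus L, pt L (rep t) = p ∧ ordAt p g ≤ vo f 1 0 (rep t)) :
    ∑ᶠ p : OnePoint ℂ, max 0 (ordAt p g) ≤ ∑ᶠ t : Torus L, vo f 1 0 (rep t) := by
  classical
  have hfin : (Function.support fun p : OnePoint ℂ => max 0 (ordAt p g)).Finite := by
    refine (ordAt_finite g).subset ?_
    intro p hp h'
    apply hp
    change max 0 (ordAt p g) = 0
    rw [h']
    rfl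
  have hfin2 := vo_finite hf hper hn 1 0 (Or.inl one_ne_zero)
  have hvo0 : ∀ t : Torus L, 0 ≤ vo f 1 0 (rep t) := by
    intro t
    rw [vo_top]
    omega
  rw [finsum_eq_sum_of_support_subset (s := hfin.toFinset) _ (by rw [Set.Finite.coe_toFinset]),
    finsum_eq_sum_of_support_subset (s := hfin2.toFinset) _ (by rw [Set.Finite.coe_toFinset])]
  have hpos : ∀ p ∈ hfin.toFinset, 0 < ordAt p g := by
    intro p hp
    rw [hfin.mem_toFinset, Function.mem_support] at hp
    omega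
  choose! τ hτ using h
  have hinj : Set.InjOn τ (hfin.toFinset : Set (OnePoint ℂ)) := by
    intro p hp q hq hpq
    rw [← (hτ p (hpos p hp)).1, ← (hτ q (hpos q hq)).1, hpq]
  have h1 : ∑ p ∈ hfin.toFinset, max 0 (ordAt p g)
      ≤ ∑ p ∈ hfin.toFinset, vo f 1 0 (rep (τ p)) := by
    apply Finset.sum_le_sum
    intro p hp
    have h2 := (hτ p (hpos p hp)).2
    have h3 := hpos p hp
    omega
  refine h1.trans ?_
  rw [← Finset.sum_image (s := hfin.toFinset) (g := τ) (f := fun t => vo f 1 0 (rep t)) hinj]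
  apply Finset.sum_le_sum_of_subset_of_nonneg
  · intro t ht
    obtain ⟨p, hp, rfl⟩ := Finset.mem_image.1 ht
    rw [hfin2.mem_toFinset, Function.mem_support]
    have h2 := (hτ p (hpos p hp)).2
    have h3 := hpos p hp
    omega
  · intro t _ _
    exact hvo0 t

theorem cl_rep_ne {t : Torus L} (h : t ≠ 0) : rep t ∉ L.lattice := by
  intro h1
  apply h
  rw [← cl_rep t, cl_eq_zero]
  exact h1

/-- The main construction. -/
theorem exists_curve (u v : ℂ) (n : ℕ) (hn : n ≠ 0) (hu : n • cl L u = 0) (hu2 : 2 • cl L u ≠ 0)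
    (hv : n • cl L v = 0) (hv2 : 2 • cl L v ≠ 0) (l : ℕ) (hl : 8 * n ≤ l) :
    ∃ Γ : RationalCurve, (((2 * n + 1) * (1 + n * l) : ℕ) : ℤ) ^ 2
      ≤ Γ.canonicalDegree (halfValues L) (L.weierstrassP u) (L.derivWeierstrassP u / 2)
        (L.weierstrassP v) + 10 * n ∧
      Γ.degree ≤ (30 * n ^ 3 * ((2 * n + 1) * (1 + n * l)) ^ 4 : ℕ) := by
  classical
  obtain ⟨E, hZ, hW, hWq, hZW, hsym⟩ := exists_E n hn u hu hu2
  set M₁ : ℕ := (2 * n + 1) * (1 + n * l) with hM₁
  set N : ℕ := n * M₁ + 1 with hN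
  set m : ℕ := M₁ * N with hm
  have hn1 : 1 ≤ n := Nat.one_le_iff_ne_zero.2 hn
  have hM₁0 : M₁ ≠ 0 := by
    rw [hM₁]
    positivity
  have hN0 : N ≠ 0 := by omega
  have hm0 : m ≠ 0 := mul_ne_zero hM₁0 hN0
  have hMl : l ≤ M₁ := by
    rw [hM₁]
    calc l ≤ n * l := Nat.le_mul_of_pos_left l hn1
      _ ≤ 1 + n * l := by omega
      _ ≤ (2 * n + 1) * (1 + n * l) := Nat.le_mul_of_pos_left _ (by omega)
  have hNl : l + 1 ≤ N := by
    rw [hN]
    nlinarith
  have hNsq : 8 * n < N ^ 2 := by nlinarith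
  -- arithmetic of the multiplications
  have hMW : ∀ t : Torus L, N • t ∈ E.W → m • t = cl L u := by
    intro t ht
    obtain ⟨j, hj⟩ := hWq _ ht
    rw [hm, mul_smul, hj, mul_W hu]
  have hMv : ∀ t : Torus L, M₁ • t = cl L v → N • t = t ∧ m • t = cl L v := by
    intro t ht
    have h1 : N • t = t := by
      rw [hN, add_smul, one_smul, mul_smul, ht, hv, zero_add]
    exact ⟨h1, by rw [hm, mul_smul, h1, ht]⟩
  -- the function `f`
  set f : ℂ → ℂ := E.f N 0 with hf
  have hfm : Meromorphic f := E.f_mero hN0 0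
  have hfp : ∀ z, ∀ l ∈ L.lattice, f (z + l) = f z := fun z l hl => E.f_per N 0 z hl
  have hcl0 : cl L (0 : ℂ) = 0 := cl_eq_zero.2 (zero_mem _)
  have hnd : NDeg f := by
    apply E.ndeg hN0
    rw [hZ, hW]
    nlinarith
  have hinv : ∀ z₀, ∀ᶠ z in 𝓝[≠] z₀, f z * f (-z) = 1 := fun z₀ => f_inv E hZW hN0 z₀
  have hfo : ∀ z, oz f z = E.of N 0 (cl L z) := by
    intro z
    rw [hf, E.f_oz hN0, hcl0]
  have hfo_neg : ∀ t : Torus L, oz f (rep (-t)) = - oz f (rep t) := by
    intro t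
    rw [hfo, hfo, cl_rep, cl_rep, f_ord_neg E hZW]
  -- the coordinate functions
  obtain ⟨X, hX⟩ := exists_rep (L := L) (g := Xf L m) (Xf_mero hm0) (Xf_per m)
    (Eventually.of_forall (fun z => Xf_even m z)) (Xf_ne_top hm0)
  obtain ⟨Y, hY⟩ := exists_rep (L := L) (g := Yf L m f) (Yf_mero hm0 hfm) (Yf_per m hfp)
    (Yf_even m hfm hnd hinv 0) (Yf_ne_top hm0 hfm hnd)
  -- the special points
  have hbad : (E.bad (0 : Torus L)).card ≤ 4 * n := by
    have := E.card_bad (0 : Torus L)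
    omega
  set SA : Finset (Torus L) := pre N E.W \ E.bad 0 with hSA
  set SB : Finset (Torus L) := fib M₁ (cl L v) \ E.bad 0 with hSB
  have hSAc : (N ^ 2 * (2 * n) : ℕ) ≤ SA.card + 4 * n := by
    have h2 := Finset.le_card_sdiff (E.bad (0 : Torus L)) (pre N E.W)
    rw [card_pre hN0, hW, ← hSA] at h2
    omega
  have hSBc : M₁ ^ 2 ≤ SB.card + 4 * n := by
    have h2 := Finset.le_card_sdiff (E.bad (0 : Torus L)) (fib M₁ (cl L v))
    rw [card_fib hM₁0, ← hSB] at h2
    omega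
  have hu0 : u ∉ L.lattice := by
    intro h
    apply hu2
    rw [cl_eq_zero.2 h, smul_zero]
  have hv0 : v ∉ L.lattice := by
    intro h
    apply hv2
    rw [cl_eq_zero.2 h, smul_zero]
  have hSA1 : ∀ t ∈ SA, m • t = cl L u ∧ meromorphicOrderAt f (rep t) < 0 := by
    intro t ht
    rw [hSA, Finset.mem_sdiff, mem_pre hN0] at ht
    refine ⟨hMW t ht.1, ?_⟩
    have h1 := ht.2
    rw [E.mem_bad, not_or] at h1
    rw [hf, E.f_ord hN0, hcl0, cl_rep, EF.of, ind_W E.disj ht.1, ind_none h1.1 h1.2]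
    exact_mod_cast (by norm_num : (-1 - 0 : ℤ) < 0)
  have hSB1 : ∀ t ∈ SB, m • t = cl L v ∧ 0 < meromorphicOrderAt (fun w => f w - 1) (rep t) := by
    intro t ht
    rw [hSB, Finset.mem_sdiff, mem_fib hM₁0] at ht
    obtain ⟨h1, h2⟩ := hMv t ht.1
    refine ⟨h2, ?_⟩
    have hb := ht.2
    rw [E.mem_bad, not_or, add_zero] at hb
    have h3 := E.vo_val hN0 0 hnd (κ := 1) (t := t) (by rw [hcl0]; exact ht.2)
      (by rw [h1]; exact hb.1) (by rw [h1]; exact hb.2) (by
        rw [one_mul, add_zero]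
        apply E.per'
        rw [cl_nmul, cl_rep, h1])
    have h4 : oz f (rep t) = 0 := by
      rw [hfo, cl_rep, EF.of, h1, add_zero, sub_self]
    rw [vo] at h3
    have h5 : 0 < oz (lin f 1 1) (rep t) := by
      have h6 : min (oz f (rep t)) 0 = 0 := by rw [h4]; rfl
      rw [hf] at h6
      rw [h6, sub_zero] at h3
      exact h3
    have e : (fun w => f w - 1) = lin f 1 1 := by
      funext w
      simp [lin]
    rw [e, oz_eq (hnd 1 1 (Or.inl one_ne_zero) _)]
    exact_mod_cast h5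
  have hclm : ∀ t : Torus L, cl L ((m : ℂ) * rep t) = m • t := fun t => by rw [cl_nmul, cl_rep]
  have hinj : ∀ (w : ℂ), 2 • cl L w ≠ 0 → ∀ s t : Torus L, m • s = cl L w → m • t = cl L w →
      pt L (rep s) = pt L (rep t) → s = t := by
    intro w hw s t hs ht h
    rcases pt_eq L h with h1 | h1
    · rwa [cl_rep, cl_rep] at h1
    · exfalso
      rw [cl_rep, cl_rep] at h1
      apply hw
      rw [h1, smul_neg, ht] at hs
      rw [two_smul]
      nth_rewrite 1 [← hs]
      exact neg_add_cancel _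
  -- non-emptiness
  have hSAne : SA.Nonempty := by
    rw [← Finset.card_pos]
    nlinarith
  have hSBne : SB.Nonempty := by
    rw [← Finset.card_pos]
    have : 8 * n < M₁ ^ 2 := by nlinarith
    omega
  obtain ⟨tA, htA⟩ := hSAne
  obtain ⟨tB, htB⟩ := hSBne
  -- `X` and `Y` are not constant
  have hXc : ∀ c : ℂ, X ≠ RatFunc.C c := by
    intro c hc
    have h1 := hX 0
    rw [hc] at h1
    have h2 := Rep.C (L := L) c 0
    have h3 := meromorphicOrderAt_congr (h1.symm.trans h2)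
    rw [Xf_ord0 hm0, meromorphicOrderAt_const] at h3
    split_ifs at h3
    · exact absurd h3 (WithTop.coe_ne_top)
    · have h4 : (-2 : ℤ) = 0 := by exact_mod_cast h3
      norm_num at h4
  have hYc : ∀ c : ℂ, Y ≠ RatFunc.C c := by
    intro c hc
    have h1 := hY (rep tB)
    rw [hc] at h1
    have h2 := Rep.C (L := L) c (rep tB)
    have h3 := meromorphicOrderAt_congr (h1.symm.trans h2)
    have h4 := Yf_pos_one hm0 hfm hv0 (by rw [hclm]; exact (hSB1 tB htB).1) (hSB1 tB htB).2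
    rw [h3, meromorphicOrderAt_const] at h4
    split_ifs at h4 with h5
    · rw [meromorphicOrderAt_const, if_pos h5] at h3
      exact Yf_ne_top hm0 hfm hnd _ h3
    · exact lt_irrefl _ h4
  have hX0 : X ≠ 0 := by
    have := hXc 0
    rwa [map_zero] at this
  have hY0 : Y ≠ 0 := by
    have := hYc 0
    rwa [map_zero] at this
  -- birationality
  have hbir : ∃ T : Set ℂ, T.Finite ∧ ∀ s t : ℂ, s ∉ T → t ∉ T →
      X.eval (RingHom.id ℂ) s = X.eval (RingHom.id ℂ) t →
      Y.eval (RingHom.id ℂ) s = Y.eval (RingHom.id ℂ) t → s = t := by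
    obtain ⟨T0, hT0, hT0'⟩ := birat_of (L := L) hfm hfp hm0 (by
      intro κ hκ hper
      apply hκ
      have hof : ∀ t, E.of N 0 (t + κ) = E.of N 0 t := by
        intro t
        have h1 := meromorphicOrderAt_congr (hper (rep t))
        have h2 : meromorphicOrderAt (fun w => f (w + rep κ)) (rep t)
            = meromorphicOrderAt f (rep t + rep κ) :=
          meromorphicOrderAt_comp_add_const_eq_meromorphicOrderAt (f := f)
        rw [h2] at h1
        have h3 : oz f (rep t + rep κ) = oz f (rep t) := by rw [oz, oz, h1]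
        rw [hfo, hfo, cl_add, cl_rep, cl_rep] at h3
        exact h3
      have h1 := E.period_sym hN0 0 (by rw [hZ, hW]; omega) hof
      have h2 := hsym _ h1
      exact hsym _ (E.period_sym' 0 hof (by intro t; rw [h2, add_zero])))
    -- generic conditions
    set P : ℂ → Prop := fun w => cmp L X w = Xf L m w ∧ cmp L Y w = Yf L m f w ∧
      2 * ((m : ℂ) * w) ∉ L.lattice ∧ f w - (-1) ≠ 0 with hP
    have hPper : ∀ z w, cl L z = cl L w → P z → P w := by
      intro z w h hz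
      obtain ⟨h1, h2, h3, h4⟩ := hz
      have hf' : f w = f z := by
        have h5 := hfp z _ (cl_eq.1 h.symm)
        rwa [add_sub_cancel] at h5
      have hmw : cl L ((m : ℂ) * z) = cl L ((m : ℂ) * w) := by rw [cl_nmul, cl_nmul, h]
      refine ⟨?_, ?_, ?_, ?_⟩
      · rw [cmp, ← wp_per L h, Xf, ← wp_per L hmw]
        exact h1
      · rw [cmp, ← wp_per L h, Yf, ← wpd_per hmw, hf']
        exact h2
      · intro h5
        apply h3
        have h6 : cl L (2 * ((m : ℂ) * z)) = cl L (2 * ((m : ℂ) * w)) := by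
          have e : ∀ y : ℂ, (2 : ℂ) * y = ((2 : ℕ) : ℂ) * y := fun y => by push_cast; ring
          rw [e, e, cl_nmul (L := L) 2, cl_nmul (L := L) 2, hmw]
        rw [← cl_eq_zero, h6, cl_eq_zero]
        exact h5
      · rw [hf']
        exact h4
    have hPev : ∀ z, ∀ᶠ w in 𝓝[≠] z, P w := by
      intro z
      filter_upwards [hX z, hY z, ev_not_half (L := L) hm0 z, ev_lin_ne hfm hnd (-1) z]
        with w h1 h2 h3 h4
      exact ⟨h1, h2, h3, h4⟩
    have hPfin := finite_bad (L := L) hPper hPev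
    refine ⟨(fun t : Torus L => L.weierstrassP (rep t)) '' (T0 ∪ {t : Torus L | ¬ P (rep t)}),
      (hT0.union hPfin).image _, ?_⟩
    intro ξ ξ' hξ hξ' hXX hYY
    have key : ∀ ζ : ℂ, ζ ∉ (fun t : Torus L => L.weierstrassP (rep t)) ''
        (T0 ∪ {t : Torus L | ¬ P (rep t)}) → ∀ t : Torus L, L.weierstrassP (rep t) = ζ →
        t ∉ T0 ∧ P (rep t) := by
      intro ζ hζ t ht
      constructor
      · intro h
        exact hζ ⟨t, Or.inl h, ht⟩
      · by_contra h
        exact hζ ⟨t, Or.inr h, ht⟩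
    obtain ⟨z, hz, hzξ⟩ := exists_wp_eq L ξ
    obtain ⟨z', hz', hzξ'⟩ := exists_wp_eq L ξ'
    set t : Torus L := cl L z with ht
    have htξ : L.weierstrassP (rep t) = ξ := by rw [wp_per L (cl_rep t), hzξ]
    obtain ⟨ht1, hP1, hP2, hP3, hP4⟩ := key ξ hξ t htξ
    -- choose the sign of the second point
    obtain ⟨t', htξ', hmt⟩ : ∃ t' : Torus L, L.weierstrassP (rep t') = ξ' ∧ m • t = m • t' := by
      set t₁ : Torus L := cl L z' with ht₁
      have htξ₁ : L.weierstrassP (rep t₁) = ξ' := by rw [wp_per L (cl_rep t₁), hzξ']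
      have htξ₂ : L.weierstrassP (rep (-t₁)) = ξ' := by
        have : L.weierstrassP (rep (-t₁)) = L.weierstrassP (-(rep t₁)) := by
          apply wp_per L
          rw [cl_rep, cl_neg, cl_rep]
        rw [this, L.weierstrassP_neg, htξ₁]
      obtain ⟨-, hQ1, -, hQ3, -⟩ := key ξ' hξ' t₁ htξ₁
      have e1 : Xf L m (rep t) = Xf L m (rep t₁) := by
        rw [← hP1, ← hQ1, cmp, cmp, htξ, htξ₁]
        exact hXX
      rw [Xf, Xf, wp_eq_iff L (not_of_two hP3) (not_of_two hQ3)] at e1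
      rcases e1 with h | h
      · refine ⟨-t₁, htξ₂, ?_⟩
        rw [← cl_eq_neg, cl_nmul, cl_nmul, cl_rep, cl_rep] at h
        rw [smul_neg]
        exact h
      · refine ⟨t₁, htξ₁, ?_⟩
        rw [← cl_eq, cl_nmul, cl_nmul, cl_rep, cl_rep] at h
        exact h
    obtain ⟨ht1', hQ1, hQ2, hQ3, hQ4⟩ := key ξ' hξ' t' htξ'
    have e2 : Yf L m f (rep t) = Yf L m f (rep t') := by
      rw [← hP2, ← hQ2, cmp, cmp, htξ, htξ']
      exact hYY
    have e3 : L.derivWeierstrassP ((m : ℂ) * rep t) = L.derivWeierstrassP ((m : ℂ) * rep t') := by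
      apply wpd_per
      rw [hclm, hclm, hmt]
    have e4 := Wg.wpd_ne L _ hQ3
    rw [Yf, Yf, e3] at e2
    rw [sub_neg_eq_add] at hP4 hQ4
    have e5 : f (rep t) = f (rep t') := by
      rw [div_eq_div_iff (mul_ne_zero two_ne_zero hP4) (mul_ne_zero two_ne_zero hQ4)] at e2
      apply mul_left_cancel₀ e4
      linear_combination e2 / 4
    have e6 := hT0' t t' ht1 ht1' hmt e5
    rw [← htξ, ← htξ', e6]
  -- the curve
  set Γ : RationalCurve := ⟨X, Y, hXc, hYc, hbir⟩ with hΓ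
  have hdegree : Γ.degree ≤ 5 * (m : ℤ) ^ 2 + (N ^ 2 * (2 * n) + 2 * n : ℕ) := by
    have h1 := degree_le Γ
    have h2 := poles_le (L := L) (Xf_mero hm0) (Xf_per m) (Xf_ne_top hm0) hX0 hX
    have h3 := poles_le (L := L) (Yf_mero hm0 hfm) (Yf_per m hfp) (Yf_ne_top hm0 hfm hnd) hY0 hY
    have h4 := Xf_poles (L := L) hm0
    have h5 := Yf_poles (L := L) hm0 hfm hfp hnd
    have h6 := E.sum_le hN0 0
    rw [hZ, hW, ← hf] at h6
    have h7 : Γ.degree ≤ ∑ᶠ p : OnePoint ℂ, max 0 (-(ordAt p X))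
      + ∑ᶠ p : OnePoint ℂ, max 0 (-(ordAt p Y)) := h1
    linarith
  refine ⟨Γ, ?_, hdegree.trans ?_⟩
  swap
  · have hNM : N ≤ 2 * n * M₁ := by
      rw [hN]
      have : 1 ≤ n * M₁ := Nat.one_le_iff_ne_zero.2 (mul_ne_zero hn hM₁0)
      nlinarith
    have hM1 : 1 ≤ M₁ := Nat.one_le_iff_ne_zero.2 hM₁0
    have e1 : N ^ 2 ≤ 4 * n ^ 2 * M₁ ^ 2 := by
      calc N ^ 2 ≤ (2 * n * M₁) ^ 2 := Nat.pow_le_pow_left hNM 2
        _ = 4 * n ^ 2 * M₁ ^ 2 := by ring
    have e2 : m ^ 2 ≤ 4 * n ^ 2 * M₁ ^ 4 := by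
      rw [hm, mul_pow]
      calc M₁ ^ 2 * N ^ 2 ≤ M₁ ^ 2 * (4 * n ^ 2 * M₁ ^ 2) := Nat.mul_le_mul_left _ e1
        _ = 4 * n ^ 2 * M₁ ^ 4 := by ring
    have e3 : n ^ 2 ≤ n ^ 3 := Nat.pow_le_pow_right hn1 (by norm_num)
    have e4 : n ≤ n ^ 3 := by
      calc n = n ^ 1 := (pow_one n).symm
        _ ≤ n ^ 3 := Nat.pow_le_pow_right hn1 (by norm_num)
    have e5 : M₁ ^ 2 ≤ M₁ ^ 4 := Nat.pow_le_pow_right hM1 (by norm_num)
    have e6 : 1 ≤ M₁ ^ 4 := Nat.one_le_pow _ _ hM1
    have e7 : 5 * m ^ 2 + (N ^ 2 * (2 * n) + 2 * n) ≤ 30 * n ^ 3 * M₁ ^ 4 := by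
      calc 5 * m ^ 2 + (N ^ 2 * (2 * n) + 2 * n)
          ≤ 5 * (4 * n ^ 2 * M₁ ^ 4) + (4 * n ^ 2 * M₁ ^ 2 * (2 * n) + 2 * n) := by gcongr
        _ = 20 * (n ^ 2 * M₁ ^ 4) + 8 * (n ^ 3 * M₁ ^ 2) + 2 * (n * 1) := by ring
        _ ≤ 20 * (n ^ 3 * M₁ ^ 4) + 8 * (n ^ 3 * M₁ ^ 4) + 2 * (n ^ 3 * M₁ ^ 4) := by gcongr
        _ = 30 * n ^ 3 * M₁ ^ 4 := by ring
    exact_mod_cast e7
  rw [Γ.canonicalDegree_eq (halfValues L) (halfValues_injective L)]
  -- `λ`
  have hlam : Rep L (Γ.lam (halfValues L)) (fun z => (Xf L m z - halfValues L 0)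
      * (Xf L m z - halfValues L 1) * (Xf L m z - halfValues L 2)
      / (Yf L m f z * Yf L m f z)) := by
    have h1 := ((hX.sub_C (halfValues L 0)).mul (hX.sub_C (halfValues L 1))).mul
      (hX.sub_C (halfValues L 2))
    have h2 := h1.div (hY.mul hY) (mul_ne_zero hY0 hY0)
    have e : Γ.lam (halfValues L) = (X - RatFunc.C (halfValues L 0))
        * (X - RatFunc.C (halfValues L 1)) * (X - RatFunc.C (halfValues L 2)) / (Y * Y) := by
      rw [RationalCurve.lam, pow_two]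
    rw [e]
    exact h2
  set g : RatFunc ℂ := Γ.lam (halfValues L) - RatFunc.C 1 with hg
  have hgrep : Rep L g (fun w => 4 * f w / ((f w - 1) * (f w - 1))) :=
    (hlam.sub_C 1).congr (fun z => lam_sub_one hm0 hfm hnd z)
  have hlamc : ∀ c : ℂ, Γ.lam (halfValues L) ≠ RatFunc.C c := by
    intro c hc
    have h1 := hgrep (rep tB)
    have e0 : g = RatFunc.C (c - 1) := by rw [hg, hc, map_sub]
    rw [e0] at h1
    have h2 := Rep.C (L := L) (c - 1) (rep tB)
    have h3 := meromorphicOrderAt_congr (h1.symm.trans h2)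
    rw [Hf_ord hfm hnd, meromorphicOrderAt_const] at h3
    have h4 := (hSB1 tB htB).2
    have e : (fun w => f w - 1) = lin f 1 1 := by
      funext w
      simp [lin]
    rw [e, oz_eq (hnd 1 1 (Or.inl one_ne_zero) _)] at h4
    have h5 : 0 < oz (lin f 1 1) (rep tB) := by exact_mod_cast h4
    obtain ⟨k1, k2, k3⟩ := ord_cases hfm hnd (rep tB)
    have h6 : oz f (rep tB) = 0 := by
      rcases lt_trichotomy (oz f (rep tB)) 0 with h7 | h7 | h7
      · have := k1 h7
        omega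
      · exact h7
      · have := k2 h7
        omega
    split_ifs at h3
    · exact absurd h3 WithTop.coe_ne_top
    · have h8 : oz f (rep tB) - 2 * oz (lin f 1 1) (rep tB) = 0 := by exact_mod_cast h3
      omega
  have hg0 : g ≠ 0 := sub_ne_zero.2 (hlamc 1)
  -- the sum of the negative parts
  have hsum1 : ∑ᶠ p : OnePoint ℂ, min 0 (ordAt p (Γ.lam (halfValues L)))
      = - ∑ᶠ p : OnePoint ℂ, max 0 (ordAt p g) := by
    have e1 : ∀ p : OnePoint ℂ, min 0 (ordAt p (Γ.lam (halfValues L))) = min 0 (ordAt p g) := by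
      intro p
      obtain ⟨k1, k2⟩ := ordAt_sub_C p hlamc 1
      rw [← hg] at k1 k2
      rcases lt_or_ge (ordAt p (Γ.lam (halfValues L))) 0 with h | h
      · rw [k1 h]
      · have := k2 h
        omega
    have e2 : ∀ p : OnePoint ℂ, min 0 (ordAt p g) = ordAt p g + -(max 0 (ordAt p g)) := by
      intro p
      omega
    have hfin : (Function.support fun p : OnePoint ℂ => -(max 0 (ordAt p g))).Finite := by
      refine (ordAt_finite g).subset ?_
      intro p hp h'
      apply hp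
      change -(max 0 (ordAt p g)) = 0
      rw [h']
      rfl
    rw [finsum_congr e1, finsum_congr e2, finsum_add_distrib (ordAt_finite g) hfin, ordAt_sum,
      zero_add, finsum_neg_distrib]
  have hsum2 := sum_le_vo hfm hfp hnd g (by
    intro p hp
    obtain ⟨z, rfl⟩ := pt_surj L p
    set t : Torus L := cl L z with ht
    have hpt : pt L (rep t) = pt L z := pt_cl L (cl_rep t)
    rw [← hpt] at hp
    have h1 := hgrep.le hg0 (Hf_ord hfm hnd (rep t)) hp
    obtain ⟨k1, k2, k3⟩ := ord_cases hfm hnd (rep t)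
    rcases lt_trichotomy (oz f (rep t)) 0 with h7 | h7 | h7
    · refine ⟨t, hpt, ?_⟩
      rw [← hpt, vo_top]
      have := k1 h7
      omega
    · have := k3 h7
      omega
    · have hpt' : pt L (rep (-t)) = pt L z := by
        rw [← hpt, ← pt_neg L (rep t)]
        apply pt_cl
        rw [cl_rep, cl_neg, cl_rep]
      refine ⟨-t, hpt', ?_⟩
      rw [← hpt, vo_top, hfo_neg]
      have := k2 h7
      omega)
  have hsum3 := E.sum_le hN0 0
  rw [hZ, hW] at hsum3
  rw [← hf] at hsum3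
  -- the multiplicities
  have hmA := mult_ge (L := L) (u := X - RatFunc.C (L.weierstrassP u))
    (v := Y - RatFunc.C (L.derivWeierstrassP u / 2)) SA
    (fun s hs t ht => hinj u hu2 s t (hSA1 s hs).1 (hSA1 t ht).1)
    (fun t ht => (hX.sub_C _).pos (sub_ne_zero.2 (hXc _))
      (Xf_pos hm0 hu0 (by rw [hclm]; exact (hSA1 t ht).1)))
    (fun t ht => (hY.sub_C _).pos (sub_ne_zero.2 (hYc _))
      (Yf_pos_pole hm0 hfm hnd hu0 (by rw [hclm]; exact (hSA1 t ht).1) (hSA1 t ht).2))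
  have hmB := mult_ge (L := L) (u := X - RatFunc.C (L.weierstrassP v)) (v := Y) SB
    (fun s hs t ht => hinj v hv2 s t (hSB1 s hs).1 (hSB1 t ht).1)
    (fun t ht => (hX.sub_C _).pos (sub_ne_zero.2 (hXc _))
      (Xf_pos hm0 hv0 (by rw [hclm]; exact (hSB1 t ht).1)))
    (fun t ht => hY.pos hY0
      (Yf_pos_one hm0 hfm hv0 (by rw [hclm]; exact (hSB1 t ht).1) (hSB1 t ht).2))
  rw [hsum1]
  have c1 : ((N ^ 2 * (2 * n) : ℕ) : ℤ) ≤ ((SA.card + 4 * n : ℕ) : ℤ) := by exact_mod_cast hSAc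
  have c2 : ((M₁ ^ 2 : ℕ) : ℤ) ≤ ((SB.card + 4 * n : ℕ) : ℤ) := by exact_mod_cast hSBc
  have c3 := hsum2.trans hsum3
  push_cast at c1 c2 c3 ⊢
  change (M₁ : ℤ) ^ 2 ≤ -_ + RationalCurve.mult (X - RatFunc.C (L.weierstrassP u))
    (Y - RatFunc.C (L.derivWeierstrassP u / 2))
    + RationalCurve.mult (X - RatFunc.C (L.weierstrassP v)) Y + 10 * (n : ℤ)
  linarith

end Pool.Agent.H80.RS
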