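import Mathlib
import Pool.Agent.H80.RS.Main

/-!
The maps `(x, y) ↦ (x, κ y)` of the plane.
-/

open Filter Topology
open H4EP H667R3 Pool.Agent.TH172.ER Pool.Agent.Y442.EC
open scoped OnePoint PeriodPair

noncomputable section

namespace Pool.Agent.H80.RS

theorem C_mul_const {κ : ℂ} (hκ : κ ≠ 0) (g : RatFunc ℂ) {c : ℂ}
    (h : RatFunc.C κ * g = RatFunc.C c) : g = RatFunc.C (κ⁻¹ * c) := by
  rw [map_mul, ← h, ← mul_assoc, ← map_mul, inv_mul_cancel₀ hκ, map_one, one_mul]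

theorem ordAt_C_mul (p : OnePoint ℂ) {κ : ℂ} (hκ : κ ≠ 0) {g : RatFunc ℂ} (hg : g ≠ 0) :
    ordAt p (RatFunc.C κ * g) = ordAt p g := by
  rw [ordAt_mul p (C_ne hκ) hg, ordAt_C, zero_add]

/-- the image of the curve under `(x, y) ↦ (x, κ y)` -/
def RationalCurve.scale (Γ : RationalCurve) (κ : ℂ) (hκ : κ ≠ 0) : RationalCurve where
  X := Γ.X
  Y := RatFunc.C κ * Γ.Y
  X_nonconst := Γ.X_nonconst
  Y_nonconst := fun _ h => Γ.Y_nonconst _ (C_mul_const hκ _ h)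
  birational := by
    obtain ⟨T, hT, h⟩ := Γ.birational
    refine ⟨T ∪ {s | Γ.Y.denom.eval s = 0}, hT.union ?_, ?_⟩
    · refine (Γ.Y.denom.rootSet ℂ).toFinite.subset ?_
      intro s hs
      rw [Polynomial.mem_rootSet]
      refine ⟨RatFunc.denom_ne_zero _, ?_⟩
      rw [Polynomial.aeval_def, Algebra.algebraMap_self, Polynomial.eval₂_id]
      exact hs
    · intro s t hs ht hX hY
      rw [Set.mem_union, not_or] at hs ht
      refine h s t hs.1 ht.1 hX ?_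
      have key : ∀ s : ℂ, s ∉ {s | Γ.Y.denom.eval s = 0} →
          (RatFunc.C κ * Γ.Y).eval (RingHom.id ℂ) s = κ * Γ.Y.eval (RingHom.id ℂ) s := by
        intro s hs
        rw [RatFunc.eval_mul]
        · rw [RatFunc.eval_C]
          rfl
        · rw [RatFunc.denom_C, Polynomial.eval₂_one]
          exact one_ne_zero
        · rw [Polynomial.eval₂_id]
          exact hs
      rw [key s hs.2, key t ht.2] at hY
      exact mul_left_cancel₀ hκ hY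

theorem mult_congr {u v u' v' : RatFunc ℂ} (hu : ∀ p, ordAt p u = ordAt p u')
    (hv : ∀ p, ordAt p v = ordAt p v') : RationalCurve.mult u v = RationalCurve.mult u' v' := by
  rw [RationalCurve.mult, RationalCurve.mult]
  apply finsum_congr
  intro p
  rw [hu, hv]

theorem RationalCurve.scale_degree (Γ : RationalCurve) (κ : ℂ) (hκ : κ ≠ 0) :
    (Γ.scale κ hκ).degree = Γ.degree := by
  rw [RationalCurve.degree, RationalCurve.degree]
  congr 1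
  apply finsum_congr
  intro p
  change min 0 (min (ordAt p Γ.X) (ordAt p (RatFunc.C κ * Γ.Y))) = _
  rw [ordAt_C_mul p hκ Γ.Y_ne]

theorem RationalCurve.scale_canonicalDegree (Γ : RationalCurve) (κ : ℂ) (hκ : κ ≠ 0)
    (e : Fin 3 → ℂ) (a b c : ℂ) :
    (Γ.scale κ hκ).canonicalDegree e a (κ * b) c = Γ.canonicalDegree e a b c := by
  have hY := Γ.Y_ne
  have hX := Γ.X_ne
  have hXe : ∀ c : ℂ, Γ.X - RatFunc.C c ≠ 0 := fun c => sub_ne_zero.2 (Γ.X_nonconst c)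
  have hYe : ∀ c : ℂ, Γ.Y - RatFunc.C c ≠ 0 := fun c => sub_ne_zero.2 (Γ.Y_nonconst c)
  have o1 : ∀ p, ordAt p (RatFunc.C κ * Γ.Y) = ordAt p Γ.Y := fun p => ordAt_C_mul p hκ hY
  have hκY : RatFunc.C κ * Γ.Y ≠ 0 := mul_ne_zero (C_ne hκ) hY
  have hK := C_ne hκ
  rw [RationalCurve.canonicalDegree, RationalCurve.canonicalDegree, Γ.scale_degree κ hκ]
  change -3 * Γ.degree
    + ∑ i : Fin 3, (mult (Γ.X - RatFunc.C (e i)) (RatFunc.C κ * Γ.Y)
        + mult ((Γ.X - RatFunc.C (e i)) / (RatFunc.C κ * Γ.Y)) (RatFunc.C κ * Γ.Y))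
    + (mult (Γ.X / (RatFunc.C κ * Γ.Y)) (1 / (RatFunc.C κ * Γ.Y))
        + mult (Γ.X / (RatFunc.C κ * Γ.Y)) (1 / Γ.X)
        + mult (Γ.X / (RatFunc.C κ * Γ.Y)) ((RatFunc.C κ * Γ.Y) / Γ.X ^ 2))
    + mult (Γ.X - RatFunc.C a) (RatFunc.C κ * Γ.Y - RatFunc.C (κ * b))
    + mult (Γ.X - RatFunc.C c) (RatFunc.C κ * Γ.Y) = _
  have e1 : RatFunc.C κ * Γ.Y - RatFunc.C (κ * b) = RatFunc.C κ * (Γ.Y - RatFunc.C b) := by
    rw [map_mul, mul_sub]
  have hdiv : ∀ {g : RatFunc ℂ} (_ : g ≠ 0) (p : OnePoint ℂ),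
      ordAt p (g / (RatFunc.C κ * Γ.Y)) = ordAt p (g / Γ.Y) := by
    intro g hg p
    rw [ordAt_div p hg hκY, ordAt_div p hg hY, o1]
  have hX2 : Γ.X ^ 2 ≠ 0 := pow_ne_zero 2 hX
  have hdiv2 : ∀ p, ordAt p ((RatFunc.C κ * Γ.Y) / Γ.X ^ 2) = ordAt p (Γ.Y / Γ.X ^ 2) := by
    intro p
    rw [ordAt_div p hκY hX2, ordAt_div p hY hX2, o1]
  have m1 : ∀ i, mult (Γ.X - RatFunc.C (e i)) (RatFunc.C κ * Γ.Y)
      = mult (Γ.X - RatFunc.C (e i)) Γ.Y := fun i => mult_congr (fun _ => rfl) o1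
  have m2 : ∀ i, mult ((Γ.X - RatFunc.C (e i)) / (RatFunc.C κ * Γ.Y)) (RatFunc.C κ * Γ.Y)
      = mult ((Γ.X - RatFunc.C (e i)) / Γ.Y) Γ.Y := fun i => mult_congr (hdiv (hXe _)) o1
  have m3 : mult (Γ.X / (RatFunc.C κ * Γ.Y)) (1 / (RatFunc.C κ * Γ.Y))
      = mult (Γ.X / Γ.Y) (1 / Γ.Y) := mult_congr (hdiv hX) (hdiv one_ne_zero)
  have m4 : mult (Γ.X / (RatFunc.C κ * Γ.Y)) (1 / Γ.X) = mult (Γ.X / Γ.Y) (1 / Γ.X) :=
    mult_congr (hdiv hX) (fun _ => rfl)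
  have m5 : mult (Γ.X / (RatFunc.C κ * Γ.Y)) ((RatFunc.C κ * Γ.Y) / Γ.X ^ 2)
      = mult (Γ.X / Γ.Y) (Γ.Y / Γ.X ^ 2) := mult_congr (hdiv hX) hdiv2
  have m6 : mult (Γ.X - RatFunc.C a) (RatFunc.C κ * Γ.Y - RatFunc.C (κ * b))
      = mult (Γ.X - RatFunc.C a) (Γ.Y - RatFunc.C b) := by
    refine mult_congr (fun _ => rfl) (fun p => ?_)
    rw [e1, ordAt_C_mul p hκ (hYe b)]
  have m7 : mult (Γ.X - RatFunc.C c) (RatFunc.C κ * Γ.Y) = mult (Γ.X - RatFunc.C c) Γ.Y :=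
    mult_congr (fun _ => rfl) o1
  simp only [m1, m2, m3, m4, m5, m6, m7]

variable (L : PeriodPair)

theorem exists_torsion : ∃ u : ℂ, 3 * u ∈ L.lattice ∧ 2 * u ∉ L.lattice := by
  have h1 : 1 < (fib 3 (0 : Torus L)).card := by
    rw [card_fib (by norm_num)]
    norm_num
  obtain ⟨t, ht, ht0⟩ := Finset.exists_mem_ne h1 0
  rw [mem_fib (by norm_num)] at ht
  have e3 : cl L (3 * rep t) = 0 := by
    have := cl_nmul (L := L) 3 (rep t)
    rw [cl_rep, ht] at this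
    exact_mod_cast this
  refine ⟨rep t, cl_eq_zero.1 e3, ?_⟩
  intro h
  apply ht0
  have e2 : (2 : ℕ) • t = 0 := by
    have := cl_nmul (L := L) 2 (rep t)
    rw [cl_rep] at this
    rw [← this, cl_eq_zero]
    exact_mod_cast h
  have : t = (3 : ℕ) • t - (2 : ℕ) • t := by
    rw [succ_nsmul, add_sub_cancel_left]
  rw [this, ht, e2, sub_zero]

theorem smul_cl {n : ℕ} {u : ℂ} : n • cl L u = 0 ↔ (n : ℂ) * u ∈ L.lattice := by
  rw [← cl_nmul, cl_eq_zero]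

theorem wp_ne_half {v : ℂ} (hv : 2 * v ∉ L.lattice) (i : Fin 3) :
    L.weierstrassP v ≠ halfValues L i := by
  intro h
  have h1 := wpd_sq L (not_of_two hv)
  have h2 : (L.weierstrassP v - halfValues L 0) * (L.weierstrassP v - halfValues L 1)
      * (L.weierstrassP v - halfValues L 2) = 0 := by
    fin_cases i
    · have : L.weierstrassP v = halfValues L 0 := h
      rw [this]; ring
    · have : L.weierstrassP v = halfValues L 1 := h
      rw [this]; ring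
    · have : L.weierstrassP v = halfValues L 2 := h
      rw [this]; ring
  have h3 := Wg.wpd_ne L v hv
  apply h3
  have h4 : L.derivWeierstrassP v ^ 2 = 0 := by
    rw [h1]
    linear_combination 4 * h2
  exact pow_eq_zero_iff (two_ne_zero) |>.1 h4

theorem unbounded (u v : ℂ) (n : ℕ) (hn : n ≠ 0) (hu : (n : ℂ) * u ∈ L.lattice)
    (hu2 : 2 * u ∉ L.lattice) (hv : (n : ℂ) * v ∈ L.lattice) (hv2 : 2 * v ∉ L.lattice)
    (b : ℂ) (hb : b ≠ 0) : ∃ κ : ℝ, 0 < κ ∧ ∀ B : ℝ, ∃ C : RationalCurve,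
      B < C.canonicalDegree (halfValues L) (L.weierstrassP u) b (L.weierstrassP v) ∧
      κ * C.degree ≤
        (C.canonicalDegree (halfValues L) (L.weierstrassP u) b (L.weierstrassP v) : ℝ) ^ 2 := by
  have hu' : n • cl L u = 0 := (smul_cl L).2 hu
  have hv' : n • cl L v = 0 := (smul_cl L).2 hv
  have hu2' : 2 • cl L u ≠ 0 := by
    intro h
    apply hu2
    have := (smul_cl L).1 h
    exact_mod_cast this
  have hv2' : 2 • cl L v ≠ 0 := by
    intro h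
    apply hv2
    have := (smul_cl L).1 h
    exact_mod_cast this
  have hn1 : (1 : ℝ) ≤ n := by exact_mod_cast Nat.one_le_iff_ne_zero.2 hn
  have hd : L.derivWeierstrassP u ≠ 0 := Wg.wpd_ne L u hu2
  set κ₀ : ℂ := b / (L.derivWeierstrassP u / 2) with hκ₀
  have hκ₀0 : κ₀ ≠ 0 := div_ne_zero hb (div_ne_zero hd two_ne_zero)
  have hκb : κ₀ * (L.derivWeierstrassP u / 2) = b := div_mul_cancel₀ _ (div_ne_zero hd two_ne_zero)
  refine ⟨1 / (120 * n ^ 3), by positivity, ?_⟩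
  intro B
  obtain ⟨l₀, hl₀⟩ := exists_nat_gt (B + 10 * n)
  set l : ℕ := max l₀ (20 * n) with hl
  have hl1 : 8 * n ≤ l := by omega
  obtain ⟨Γ, hΓ, hdeg⟩ := exists_curve (L := L) u v n hn hu' hu2' hv' hv2' l hl1
  refine ⟨Γ.scale κ₀ hκ₀0, ?_⟩
  have e1 := Γ.scale_canonicalDegree κ₀ hκ₀0 (halfValues L) (L.weierstrassP u)
    (L.derivWeierstrassP u / 2) (L.weierstrassP v)
  rw [hκb] at e1
  rw [e1, Γ.scale_degree]
  set K : ℤ := Γ.canonicalDegree (halfValues L) (L.weierstrassP u) (L.derivWeierstrassP u / 2)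
    (L.weierstrassP v) with hK
  set M : ℕ := (2 * n + 1) * (1 + n * l) with hM
  have hMl : l ≤ M := by
    rw [hM]
    calc l ≤ n * l := Nat.le_mul_of_pos_left l (Nat.pos_of_ne_zero hn)
      _ ≤ 1 + n * l := by omega
      _ ≤ (2 * n + 1) * (1 + n * l) := Nat.le_mul_of_pos_left _ (by omega)
  have hMl' : (l : ℝ) ≤ M := by exact_mod_cast hMl
  have hl0' : (l₀ : ℝ) ≤ l := by exact_mod_cast (le_max_left _ _)
  have hl20 : 20 * (n : ℝ) ≤ l := by exact_mod_cast (le_max_right _ _)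
  have hKr : (M : ℝ) ^ 2 ≤ K + 10 * n := by exact_mod_cast hΓ
  have hM1 : (1 : ℝ) ≤ M := by linarith
  have hMM : (M : ℝ) ≤ (M : ℝ) ^ 2 := by nlinarith
  refine ⟨by linarith, ?_⟩
  have hdr : (Γ.degree : ℝ) ≤ 30 * n ^ 3 * (M : ℝ) ^ 4 := by exact_mod_cast hdeg
  have hM2 : (M : ℝ) ^ 2 / 2 ≤ K := by nlinarith
  have hK2 : ((M : ℝ) ^ 2 / 2) ^ 2 ≤ (K : ℝ) ^ 2 := by
    apply pow_le_pow_left₀ (by positivity) hM2
  refine le_trans ?_ hK2
  rw [div_mul_eq_mul_div, one_mul, div_le_iff₀ (by positivity)]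
  calc (Γ.degree : ℝ) ≤ 30 * n ^ 3 * (M : ℝ) ^ 4 := hdr
    _ = ((M : ℝ) ^ 2 / 2) ^ 2 * (120 * n ^ 3) := by ring

theorem general :
    (Function.Injective (halfValues L) ∧
      (∀ z ∉ L.lattice, (L.derivWeierstrassP z / 2) ^ 2
        = ∏ i : Fin 3, (L.weierstrassP z - halfValues L i)) ∧
      ∃ u : ℂ, 3 * u ∈ L.lattice ∧ 2 * u ∉ L.lattice) ∧
    ∀ (u v : ℂ) (n : ℕ), n ≠ 0 → (n : ℂ) * u ∈ L.lattice → 2 * u ∉ L.lattice →
      (n : ℂ) * v ∈ L.lattice → 2 * v ∉ L.lattice → ∀ b : ℂ, b ≠ 0 →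
      (∀ i, L.weierstrassP v ≠ halfValues L i) ∧
      ∃ κ : ℝ, 0 < κ ∧ ∀ A B : ℝ, ∃ C : RationalCurve,
        A * (0 - 1) + B < C.canonicalDegree (halfValues L) (L.weierstrassP u) b
          (L.weierstrassP v) ∧
        κ * C.degree ≤ (C.canonicalDegree (halfValues L) (L.weierstrassP u) b
          (L.weierstrassP v) : ℝ) ^ 2 := by
  refine ⟨⟨halfValues_injective L, ?_, exists_torsion L⟩, ?_⟩
  · intro z hz
    have h := wpd_sq L hz
    rw [Fin.prod_univ_three]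
    linear_combination h / 4
  · intro u v n hn hu hu2 hv hv2 b hb
    refine ⟨wp_ne_half L hv2, ?_⟩
    obtain ⟨κ, hκ, h⟩ := unbounded L u v n hn hu hu2 hv hv2 b hb
    exact ⟨κ, hκ, fun A B => h (A * (0 - 1) + B)⟩

end Pool.Agent.H80.RS
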